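import Pool.Agent.Y599.MM.Mem
import Pool.Agent.H671R2.BSat

/-!
# Three far-apart paths: the reduction from satisfiability
-/

namespace Pool.Agent.Y599.MM

open Pool.Agent.NPC Pool.Agent.NPC.R671 Pool.Agent.H671R2.Ord L

/-- formulas -/
abbrev Fm := List (List (Bool × ℕ))

/-- label codes: a tag, two numbers and a boolean -/
abbrev Cd := ℕ × (ℕ × ℕ) × Bool

/-- the code of a label -/
def code : L → Cd
  | .a s i => (0, (i, 0), s)
  | .x s i b => (1, (i, if b then 1 else 0), s)
  | .c j => (2, (j, 0), false)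
  | .v j k => (3, (j, k), false)
  | .p s => (4, (0, 0), s)

theorem code_inj : Function.Injective code := by
  intro u w h
  rcases u with ⟨s, i⟩ | ⟨s, i, _ | _⟩ | ⟨j⟩ | ⟨j, t⟩ | ⟨s⟩ <;>
    rcases w with ⟨s', i'⟩ | ⟨s', i', _ | _⟩ | ⟨j'⟩ | ⟨j', t'⟩ | ⟨s'⟩ <;> simp_all [code]

/-- the literal in position `k` of clause `j` -/
def lit (φ : Fm) (j k : ℕ) : Option (ℕ × Bool) := ((φ.getD j [])[k]?).map (fun l => (l.2, l.1))

/-- the tag test -/
def tg (a b : Cd) (s t : ℕ) : Bool := decide (a.1 = s) && decide (b.1 = t)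

/-- half of the adjacency on codes -/
def ad0 (φ : Fm) (a b : Cd) : Bool :=
  (tg a b 0 1 && (decide (a.2.2 = b.2.2) && (decide (b.2.1.1 = a.2.1.1) ||
    decide (a.2.1.1 = b.2.1.1 + 1)))) ||
  ((tg a b 1 1 && (decide (a.2.1.1 = b.2.1.1) && (decide (b.2.2 = !a.2.2) &&
    decide (a.2.1.2 + b.2.1.2 = 1)))) ||
  ((tg a b 0 2 && (!a.2.2 && (decide (a.2.1.1 = φ.flatten.length) && decide (b.2.1.1 = 0)))) ||
  ((tg a b 2 3 && (decide (a.2.1.1 = b.2.1.1) || decide (a.2.1.1 = b.2.1.1 + 1))) ||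
  ((tg a b 3 1 && decide (lit φ a.2.1.1 a.2.1.2 = some (b.2.1.1, decide (b.2.1.2 = 0)))) ||
  (tg a b 4 4 && decide (b.2.2 = !a.2.2))))))

theorem ad0_code (φ : Fm) (u w : L) :
    ad0 φ (code u) (code w) = adj0 φ.flatten.length (lit φ) u w := by
  rcases u with ⟨s, i⟩ | ⟨s, i, _ | _⟩ | ⟨j⟩ | ⟨j, t⟩ | ⟨s⟩ <;>
    rcases w with ⟨s', i'⟩ | ⟨s', i', _ | _⟩ | ⟨j'⟩ | ⟨j', t'⟩ | ⟨s'⟩ <;>
    simp [ad0, code, adj0, tg] <;> congr

/-- adjacency on codes -/
def ad (φ : Fm) (a b : Cd) : Bool := ad0 φ a b || ad0 φ b a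

theorem ad_code (φ : Fm) (u w : L) :
    ad φ (code u) (code w) = adj φ.flatten.length (lit φ) u w := by
  unfold ad adj
  rw [ad0_code, ad0_code]

/-- the literal is admissible -/
def okl (φ : Fm) (j k : ℕ) : Bool := (lit φ j k).any (fun l => decide (l.1 < φ.flatten.length))

/-- the list of the codes of vertices -/
def vc (φ : Fm) : List Cd :=
  (List.range (φ.flatten.length + 1)).flatMap (fun i => [(0, (i, 0), false), (0, (i, 0), true)]) ++
  ((List.range φ.flatten.length).flatMap (fun i => [(1, (i, 0), false), (1, (i, 0), true),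
    (1, (i, 1), false), (1, (i, 1), true)]) ++
  ((List.range (φ.length + 1)).map (fun j => (2, (j, 0), false)) ++
  (((List.range φ.length ×ˢ List.range φ.flatten.length).filter (fun x => okl φ x.1 x.2)).map
      (fun x => (3, (x.1, x.2), false)) ++ [(4, (0, 0), false), (4, (0, 0), true)])))

theorem lit_lt {φ : Fm} {j k : ℕ} {l : ℕ × Bool} (h : lit φ j k = some l) :
    k < φ.flatten.length := by
  unfold lit at h
  rw [Option.map_eq_some_iff] at h
  obtain ⟨l', h, _⟩ := h
  obtain ⟨h1, _⟩ := List.getElem?_eq_some_iff.1 h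
  rw [List.getD_eq_getElem?_getD] at h1
  cases hj : φ[j]? with
  | none => rw [hj] at h1; simp at h1
  | some cl =>
    rw [hj] at h1
    simp only [Option.getD_some] at h1
    have h2 : cl ∈ φ := List.mem_of_getElem? hj
    exact lt_of_lt_of_le h1 (List.Sublist.length_le (List.sublist_flatten_of_mem h2))

theorem mem_vc (φ : Fm) (z : Cd) :
    z ∈ vc φ ↔ ∃ u, valid φ.flatten.length φ.length (lit φ) u = true ∧ code u = z := by
  have hokl : ∀ j k, okl φ j k = true → k < φ.flatten.length := by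
    intro j k h
    unfold okl at h
    rw [Option.any_eq_true] at h
    obtain ⟨l, h1, _⟩ := h
    exact lit_lt h1
  unfold vc
  simp only [List.mem_append, List.mem_flatMap, List.mem_range, List.mem_map, List.mem_filter,
    List.mem_product, List.mem_cons, List.not_mem_nil, or_false, Prod.exists]
  constructor
  · rintro (⟨i, hi, rfl | rfl⟩ | ⟨i, hi, rfl | rfl | rfl | rfl⟩ | ⟨j, hj, rfl⟩ |
      ⟨j, k, ⟨⟨hj, hk⟩, ho⟩, rfl⟩ | rfl | rfl)
    · exact ⟨.a false i, by simp only [valid, decide_eq_true_eq]; omega, rfl⟩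
    · exact ⟨.a true i, by simp only [valid, decide_eq_true_eq]; omega, rfl⟩
    · exact ⟨.x false i false, by simp only [valid, decide_eq_true_eq]; omega, rfl⟩
    · exact ⟨.x true i false, by simp only [valid, decide_eq_true_eq]; omega, rfl⟩
    · exact ⟨.x false i true, by simp only [valid, decide_eq_true_eq]; omega, rfl⟩
    · exact ⟨.x true i true, by simp only [valid, decide_eq_true_eq]; omega, rfl⟩
    · exact ⟨.c j, by simp only [valid, decide_eq_true_eq]; omega, rfl⟩
    · refine ⟨.v j k, ?_, rfl⟩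
      simp only [valid, Bool.and_eq_true, decide_eq_true_eq]
      exact ⟨hj, ho⟩
    · exact ⟨.p false, rfl, rfl⟩
    · exact ⟨.p true, rfl, rfl⟩
  · rintro ⟨u, hu, rfl⟩
    rcases u with ⟨_ | _, i⟩ | ⟨_ | _, i, _ | _⟩ | ⟨j⟩ | ⟨j, t⟩ | ⟨_ | _⟩
    · simp only [valid, decide_eq_true_eq] at hu
      exact Or.inl ⟨i, by omega, Or.inl rfl⟩
    · simp only [valid, decide_eq_true_eq] at hu
      exact Or.inl ⟨i, by omega, Or.inr rfl⟩
    · simp only [valid, decide_eq_true_eq] at hu
      exact Or.inr (Or.inl ⟨i, by omega, Or.inl rfl⟩)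
    · simp only [valid, decide_eq_true_eq] at hu
      exact Or.inr (Or.inl ⟨i, by omega, Or.inr (Or.inr (Or.inl rfl))⟩)
    · simp only [valid, decide_eq_true_eq] at hu
      exact Or.inr (Or.inl ⟨i, by omega, Or.inr (Or.inl rfl)⟩)
    · simp only [valid, decide_eq_true_eq] at hu
      exact Or.inr (Or.inl ⟨i, by omega, Or.inr (Or.inr (Or.inr rfl))⟩)
    · simp only [valid, decide_eq_true_eq] at hu
      exact Or.inr (Or.inr (Or.inl ⟨j, by omega, rfl⟩))
    · simp only [valid, Bool.and_eq_true, decide_eq_true_eq] at hu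
      exact Or.inr (Or.inr (Or.inr (Or.inl ⟨j, t, ⟨⟨hu.1, hokl _ _ hu.2⟩, hu.2⟩, rfl⟩)))
    · exact Or.inr (Or.inr (Or.inr (Or.inr (Or.inl rfl))))
    · exact Or.inr (Or.inr (Or.inr (Or.inr (Or.inr rfl))))

theorem vc_nodup (φ : Fm) : (vc φ).Nodup := by
  unfold vc
  simp only [List.nodup_append]
  refine ⟨?_, ⟨?_, ⟨?_, ⟨?_, ?_, ?_⟩, ?_⟩, ?_⟩, ?_⟩
  · rw [List.nodup_flatMap]
    refine ⟨fun i _ => by simp, ?_⟩
    refine List.Pairwise.imp ?_ (List.nodup_range (n := φ.flatten.length + 1))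
    intro a b hab
    simp [Function.onFun, List.Disjoint, hab]
  · rw [List.nodup_flatMap]
    refine ⟨fun i _ => by simp, ?_⟩
    refine List.Pairwise.imp ?_ (List.nodup_range (n := φ.flatten.length))
    intro a b hab
    simp [Function.onFun, List.Disjoint, hab]
  · exact (List.nodup_range).map fun a b h => by simpa using h
  · exact ((List.nodup_range.product List.nodup_range).filter _).map fun a b h => by
      simpa using h
  · simp
  · intro a ha b hb hab
    subst hab
    rw [List.mem_map] at ha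
    obtain ⟨x, _, rfl⟩ := ha
    simp at hb
  · intro a ha b hb hab
    subst hab
    simp only [List.mem_append, List.mem_map, List.mem_cons, List.not_mem_nil, or_false] at ha hb
    obtain ⟨x, _, rfl⟩ := ha
    rcases hb with ⟨y, _, h⟩ | h | h <;> simp at h
  · intro a ha b hb hab
    subst hab
    simp only [List.mem_append, List.mem_map, List.mem_flatMap, List.mem_cons, List.not_mem_nil,
      or_false] at ha hb
    obtain ⟨x, _, ha⟩ := ha
    rcases hb with ⟨y, _, h⟩ | ⟨y, _, h⟩ | h | h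
    · rw [← h] at ha; simp at ha
    · rw [← h] at ha; simp at ha
    · rw [h] at ha; simp at ha
    · rw [h] at ha; simp at ha
  · intro a ha b hb hab
    subst hab
    simp only [List.mem_append, List.mem_map, List.mem_flatMap, List.mem_cons, List.not_mem_nil,
      or_false] at ha hb
    obtain ⟨x, _, ha⟩ := ha
    rcases ha with rfl | rfl <;>
      rcases hb with ⟨y, _, h | h | h | h⟩ | ⟨y, _, h⟩ | ⟨y, _, h⟩ | h | h <;> simp at h

/-- pairs of codes -/
abbrev Pc := Cd × Cd

/-- half of the adjacency of the subdivision, on codes -/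
def sb0 (p q : Pc) : Bool :=
  decide (p.1 = p.2) && (!decide (q.1 = q.2) && (decide (p.1 = q.1) || decide (p.1 = q.2)))

/-- the adjacency of the subdivision, on codes -/
def sb (p q : Pc) : Bool := sb0 p q || sb0 q p

theorem sb_symm (p q : Pc) : sb p q = sb q p := by
  unfold sb
  rw [Bool.or_comm]

theorem sb_irrefl (p : Pc) : sb p p = false := by
  unfold sb sb0
  by_cases h : p.1 = p.2 <;> simp [h]

/-- the list of the vertices of the subdivision -/
def ps (φ : Fm) : List Pc :=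
  (vc φ ×ˢ vc φ).filter (fun p => decide (p.1 = p.2) || ad φ p.1 p.2)

/-- the code of a vertex of the subdivision -/
def codeP {φ : Fm} (p : SubV (G0 φ.flatten.length φ.length (lit φ))) : Pc :=
  (code p.1.1.1, code p.1.2.1)

theorem codeP_inj {φ : Fm} : Function.Injective (codeP (φ := φ)) := by
  rintro ⟨⟨⟨u, hu⟩, ⟨w, hw⟩⟩, h⟩ ⟨⟨⟨u', hu'⟩, ⟨w', hw'⟩⟩, h'⟩ he
  simp only [codeP, Prod.mk.injEq] at he
  have h1 := code_inj he.1
  have h2 := code_inj he.2
  subst h1 h2
  rfl

theorem ps_nodup (φ : Fm) : (ps φ).Nodup := ((vc_nodup φ).product (vc_nodup φ)).filter _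

theorem mem_ps (φ : Fm) (z : Pc) : z ∈ ps φ ↔ ∃ p : SubV (G0 φ.flatten.length φ.length (lit φ)),
    codeP p = z := by
  unfold ps
  rw [List.mem_filter, List.mem_product, mem_vc, mem_vc]
  constructor
  · rintro ⟨⟨⟨u, hu, hu'⟩, ⟨w, hw, hw'⟩⟩, h⟩
    rw [← hu', ← hw', Bool.or_eq_true, decide_eq_true_eq, code_inj.eq_iff, ad_code] at h
    refine ⟨⟨(⟨u, hu⟩, ⟨w, hw⟩), ?_⟩, ?_⟩
    · rcases h with h | h
      · exact Or.inl (Subtype.ext h)
      · exact Or.inr h
    · exact Prod.ext hu' hw'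
  · rintro ⟨⟨⟨⟨u, hu⟩, ⟨w, hw⟩⟩, h⟩, rfl⟩
    refine ⟨⟨⟨u, hu, rfl⟩, ⟨w, hw, rfl⟩⟩, ?_⟩
    simp only [codeP]
    rw [Bool.or_eq_true, decide_eq_true_eq, code_inj.eq_iff, ad_code]
    rcases h with h | h
    · exact Or.inl (congrArg Subtype.val h)
    · exact Or.inr h

theorem sb0_codeP {φ : Fm} (p q : SubV (G0 φ.flatten.length φ.length (lit φ))) :
    sb0 (codeP p) (codeP q) = true ↔ sadj p.1 q.1 := by
  have key : ∀ u w : VV φ.flatten.length φ.length (lit φ), code u.1 = code w.1 ↔ u = w := by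
    intro u w
    rw [code_inj.eq_iff, Subtype.ext_iff]
  unfold sb0 sadj codeP
  simp only [Bool.and_eq_true, decide_eq_true_eq, Bool.not_eq_true', decide_eq_false_iff_not,
    Bool.or_eq_true, key, ne_eq]

theorem sb_codeP {φ : Fm} (p q : SubV (G0 φ.flatten.length φ.length (lit φ))) :
    sb (codeP p) (codeP q) = true ↔ (sub (G0 φ.flatten.length φ.length (lit φ))).Adj p q := by
  unfold sb
  rw [Bool.or_eq_true, sb0_codeP, sb0_codeP]
  rfl

/-- codes of the sources -/
def srcs : List Cd := [(0, (0, 0), false), (0, (0, 0), true), (4, (0, 0), false)]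

/-- codes of the sinks -/
def snks (φ : Fm) : List Cd :=
  [(2, (φ.length, 0), false), (0, (φ.flatten.length, 0), true), (4, (0, 0), true)]

/-- sources on codes -/
def iA (p : Pc) : Bool := decide (p.1 = p.2) && decide (p.1 ∈ srcs)

/-- sinks on codes -/
def iZ (φ : Fm) (p : Pc) : Bool := decide (p.1 = p.2) && decide (p.1 ∈ snks φ)

theorem iA_codeP {φ : Fm} (p : SubV (G0 φ.flatten.length φ.length (lit φ))) :
    iA (codeP p) = true ↔ ∃ a ∈ A0 φ.flatten.length φ.length (lit φ), p = og a := by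
  obtain ⟨⟨⟨u, hu⟩, ⟨w, hw⟩⟩, h⟩ := p
  have h1 : code u ∈ srcs ↔ inA u = true := by
    rcases u with ⟨_ | _, i⟩ | ⟨_ | _, i, _ | _⟩ | ⟨j⟩ | ⟨j, t⟩ | ⟨_ | _⟩ <;>
      simp [srcs, code, inA]
  simp only [iA, codeP, Bool.and_eq_true, decide_eq_true_eq, code_inj.eq_iff, h1]
  constructor
  · rintro ⟨rfl, h2⟩
    exact ⟨⟨u, hu⟩, h2, rfl⟩
  · rintro ⟨⟨a, ha⟩, h2, h3⟩
    have h4 := congrArg (fun z => z.1.1.1) h3
    have h5 := congrArg (fun z => z.1.2.1) h3
    simp only [og] at h4 h5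
    subst h4
    exact ⟨h5.symm, h2⟩

theorem iZ_codeP {φ : Fm} (p : SubV (G0 φ.flatten.length φ.length (lit φ))) :
    iZ φ (codeP p) = true ↔ ∃ a ∈ Z0 φ.flatten.length φ.length (lit φ), p = og a := by
  obtain ⟨⟨⟨u, hu⟩, ⟨w, hw⟩⟩, h⟩ := p
  have h1 : code u ∈ snks φ ↔ inZ φ.flatten.length φ.length u = true := by
    rcases u with ⟨_ | _, i⟩ | ⟨_ | _, i, _ | _⟩ | ⟨j⟩ | ⟨j, t⟩ | ⟨_ | _⟩ <;>
      simp [snks, code, inZ]
  simp only [iZ, codeP, Bool.and_eq_true, decide_eq_true_eq, code_inj.eq_iff, h1]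
  constructor
  · rintro ⟨rfl, h2⟩
    exact ⟨⟨u, hu⟩, h2, rfl⟩
  · rintro ⟨⟨a, ha⟩, h2, h3⟩
    have h4 := congrArg (fun z => z.1.1.1) h3
    have h5 := congrArg (fun z => z.1.2.1) h3
    simp only [og] at h4 h5
    subst h4
    exact ⟨h5.symm, h2⟩

/-- the instance -/
def inst (φ : Fm) : List (List Bool) × List Bool × List Bool :=
  ((ps φ).map (fun p => (ps φ).map (fun q => sb p q)), (ps φ).map (fun p => iA p),
    (ps φ).map (fun p => iZ φ p))

/-- the graph of the instance -/
def gI (φ : Fm) : SimpleGraph (Fin (ps φ).length) := listGraph (ps φ) sb sb_symm sb_irrefl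

theorem charVec_list {Λ : Type} (vs : List Λ) (f : Λ → Bool) :
    charVec {i : Fin vs.length | f vs[i] = true} = vs.map f := by
  unfold charVec
  apply List.ext_getElem
  · simp
  · intro i h1 h2
    simp

theorem mm3_matrix {n : ℕ} (G : SimpleGraph (Fin n)) (A Z : Set (Fin n)) :
    MM3 (adjMatrix G, charVec A, charVec Z) ↔ HasThreePaths G A Z := by
  constructor
  · rintro ⟨n', G', A', Z', h, h'⟩
    simp only [Prod.mk.injEq] at h
    obtain ⟨h1, h2, h3⟩ := h
    have hn : n = n' := by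
      have := congrArg List.length h1
      rwa [length_adjMatrix, length_adjMatrix] at this
    subst hn
    rw [adjMatrix_inj h1, charVec_inj h2, charVec_inj h3]
    exact h'
  · intro h
    exact ⟨n, G, A, Z, rfl, h⟩

theorem inst_eq (φ : Fm) : inst φ = (adjMatrix (gI φ),
    charVec {i : Fin (ps φ).length | iA (ps φ)[i] = true},
    charVec {i : Fin (ps φ).length | iZ φ (ps φ)[i] = true}) := by
  unfold inst gI
  rw [adjMatrix_listGraph, charVec_list, charVec_list]

theorem bsat_iff (φ : Fm) : BSat φ ↔ ∃ σ : ℕ → Bool, ∀ j < φ.length, ∃ t i b,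
    lit φ j t = some (i, b) ∧ i < φ.flatten.length ∧ σ i = b := by
  unfold BSat
  refine exists_congr fun σ => ?_
  constructor
  · intro h j hj
    obtain ⟨l, hl, h1, h2⟩ := h φ[j] (List.getElem_mem _)
    obtain ⟨t, ht, ht'⟩ := List.getElem_of_mem hl
    refine ⟨t, l.2, l.1, ?_, h1, h2⟩
    unfold lit
    rw [List.getD_eq_getElem?_getD, List.getElem?_eq_getElem hj, Option.getD_some,
      List.getElem?_eq_getElem ht, ht']
    rfl
  · intro h c hc
    obtain ⟨j, hj, rfl⟩ := List.getElem_of_mem hc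
    obtain ⟨t, i, b, h1, h2, h3⟩ := h j hj
    unfold lit at h1
    rw [List.getD_eq_getElem?_getD, List.getElem?_eq_getElem hj, Option.getD_some,
      Option.map_eq_some_iff] at h1
    obtain ⟨l, h4, h5⟩ := h1
    simp only [Prod.mk.injEq] at h5
    obtain ⟨rfl, rfl⟩ := h5
    exact ⟨l, List.mem_of_getElem? h4, h2, h3⟩

theorem main_iff (φ : Fm) : BSat φ ↔ MM3 (inst φ) := by
  rw [inst_eq, mm3_matrix, bsat_iff, ← core, ← sub_iff]
  obtain ⟨e, he⟩ := exists_equiv (ps φ) (ps_nodup φ)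
    (codeP : SubV (G0 φ.flatten.length φ.length (lit φ)) → Pc) codeP_inj (mem_ps φ)
  let e' : gI φ ≃g sub (G0 φ.flatten.length φ.length (lit φ)) :=
    { e with
      map_rel_iff' := by
        intro i j
        change (sub (G0 φ.flatten.length φ.length (lit φ))).Adj (e i) (e j) ↔
          sb (ps φ)[i] (ps φ)[j] = true
        rw [← he i, ← he j, sb_codeP] }
  refine (hasThreePaths_congr e' ?_ ?_).symm
  · intro i
    change iA (ps φ)[i] = true ↔ ∃ a ∈ _, e i = og a
    rw [← he i, iA_codeP]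
  · intro i
    change iZ φ (ps φ)[i] = true ↔ ∃ a ∈ _, e i = og a
    rw [← he i, iZ_codeP]

/-! ### Polynomial time -/

theorem lit_poly {α : Type} [TEnc α] {φ : α → Fm} {j k : α → ℕ} (h1 : Poly φ) (h2 : Poly j)
    (h3 : Poly k) : Poly (fun a => lit (φ a) (j a) (k a)) := by
  unfold lit
  fun_prop

attribute [fun_prop] lit_poly

theorem tg_poly {α : Type} [TEnc α] {a b : α → Cd} {s t : ℕ} (h1 : Poly a) (h2 : Poly b) :
    Poly (fun x => tg (a x) (b x) s t) := by
  unfold tg
  fun_prop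

attribute [fun_prop] tg_poly

theorem ad0_poly : Poly (fun x : Fm × Cd × Cd => ad0 x.1 x.2.1 x.2.2) := by
  unfold ad0
  fun_prop

attribute [local irreducible] ad0

theorem ad_poly {α : Type} [TEnc α] {φ : α → Fm} {a b : α → Cd} (h1 : Poly φ) (h2 : Poly a)
    (h3 : Poly b) : Poly (fun x => ad (φ x) (a x) (b x)) := by
  unfold ad
  exact Poly.or (ad0_poly.comp (Poly.pair h1 (Poly.pair h2 h3)))
    (ad0_poly.comp (Poly.pair h1 (Poly.pair h3 h2)))

attribute [fun_prop] ad_poly
attribute [local irreducible] ad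

theorem okl_poly {α : Type} [TEnc α] {φ : α → Fm} {j k : α → ℕ} (h1 : Poly φ) (h2 : Poly j)
    (h3 : Poly k) : Poly (fun x => okl (φ x) (j x) (k x)) := by
  unfold okl
  fun_prop

attribute [fun_prop] okl_poly
attribute [local irreducible] okl

theorem vc_poly : Poly vc := by
  have h1 : UPoly (fun φ : Fm => φ.flatten.length) :=
    UPoly.length (by fun_prop)
  have h2 : UPoly (fun φ : Fm => φ.length) :=
    UPoly.length (by fun_prop)
  have g1 := h1.range
  have g2 := h2.range
  have g3 := (UPoly.add h1 (UPoly.const 1)).range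
  have g4 := (UPoly.add h2 (UPoly.const 1)).range
  unfold vc
  refine NPC.Poly.append (by fun_prop) ?_
  refine NPC.Poly.append (by fun_prop) ?_
  refine NPC.Poly.append (by fun_prop) ?_
  refine NPC.Poly.append ?_ (NPC.Poly.const _)
  refine NPC.Poly.map (l := fun φ : Fm => (List.range φ.length ×ˢ
    List.range φ.flatten.length).filter (fun x => okl φ x.1 x.2))
    (F := fun _ x => ((3, (x.1, x.2), false) : Cd)) ?_ (by fun_prop)
  exact NPC.Poly.filter (l := fun φ : Fm => List.range φ.length ×ˢ List.range φ.flatten.length)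
    (p := fun φ x => okl φ x.1 x.2) (poly_product g2 g1) (by fun_prop)

attribute [local irreducible] vc

theorem ps_poly : Poly ps := by
  unfold ps
  exact NPC.Poly.filter (l := fun φ : Fm => vc φ ×ˢ vc φ)
    (p := fun φ p => decide (p.1 = p.2) || ad φ p.1 p.2) (poly_product vc_poly vc_poly)
    (by fun_prop)

attribute [local irreducible] ps

theorem sb_poly {α : Type} [TEnc α] {a b : α → Pc} (h2 : Poly a)
    (h3 : Poly b) : Poly (fun x => sb (a x) (b x)) := by
  unfold sb sb0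
  fun_prop

attribute [fun_prop] sb_poly
attribute [local irreducible] sb

theorem iA_poly {α : Type} [TEnc α] {a : α → Pc} (h2 : Poly a) : Poly (fun x => iA (a x)) := by
  unfold iA
  exact NPC.Poly.and (by fun_prop) (NPC.Poly.dec_mem (by fun_prop) (NPC.Poly.const _))

theorem iZ_poly {α : Type} [TEnc α] {φ : α → Fm} {a : α → Pc} (h1 : Poly φ) (h2 : Poly a) :
    Poly (fun x => iZ (φ x) (a x)) := by
  unfold iZ snks
  fun_prop

attribute [fun_prop] iA_poly iZ_poly
attribute [local irreducible] iA iZ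

theorem inst_poly : Poly inst := by
  have h := ps_poly
  unfold inst
  refine NPC.Poly.pair ?_ (NPC.Poly.pair ?_ ?_)
  · refine NPC.Poly.map h (F := fun φ p => (ps φ).map (fun q => sb p q)) ?_
    exact NPC.Poly.map (l := fun x : Fm × Pc => ps x.1) (F := fun x q => sb x.2 q)
      (h.comp (Poly.fst Poly.id)) (by fun_prop)
  · exact NPC.Poly.map h (F := fun _ p => iA p) (by fun_prop)
  · exact NPC.Poly.map h (F := fun φ p => iZ φ p) (by fun_prop)

theorem hardI : HardI MM3 :=
  (hardPr_BSat.trans (Pr' := fun _ => True) inst_poly (fun _ _ => trivial)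
    (fun φ _ => main_iff φ)).toHardI

end Pool.Agent.Y599.MM
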