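import Pool.Agent.Y599.MM.Gad

/-!
# Three far-apart paths: correctness of the gadget graph
-/

namespace Pool.Agent.Y599.MM

open Pool.Agent.NPC Pool.Agent.NPC.R671 L

variable {N m : ℕ} {lit : ℕ → ℕ → Option (ℕ × Bool)}

theorem Lnk.stop {V : Type} {G : SimpleGraph V} {S : Set V} {u v : V} (h : Lnk G S u v) :
    v ∈ S := by
  obtain ⟨W, hW⟩ := h
  exact hW _ W.end_mem_support

theorem Anti.symm {V : Type} {G : SimpleGraph V} {u v : V} (h : Anti G u v) : Anti G v u :=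
  ⟨h.1.symm, fun h' => h.2 h'.symm⟩

theorem surj3 {β : Type} (e x : Fin 3 → β) (hx : ∀ i, ∃ k, x i = e k)
    (hne : ∀ i j, i ≠ j → x i ≠ x j) : ∀ k, ∃ i, x i = e k := by
  choose g hg using hx
  have hinj : Function.Injective g := by
    intro i j hij
    by_contra hne'
    exact hne i j hne' (by rw [hg, hg, hij])
  have hsurj := Finite.injective_iff_surjective.1 hinj
  intro k
  obtain ⟨i, hi⟩ := hsurj k
  exact ⟨i, by rw [hg, hi]⟩

theorem sound (x y : Fin 3 → L) (S : Fin 3 → Set L)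
    (hx : ∀ i, inA (x i) = true ∧ valid N m lit (x i) = true)
    (hy : ∀ i, inZ N m (y i) = true)
    (hl : ∀ i, Lnk (gG N lit) (S i) (x i) (y i))
    (hval : ∀ i, ∀ z ∈ S i, valid N m lit z = true)
    (hanti : ∀ i j, i ≠ j → ∀ u ∈ S i, ∀ w ∈ S j, Anti (gG N lit) u w) :
    ∃ σ : ℕ → Bool, ∀ j < m, ∃ t i b, lit j t = some (i, b) ∧ i < N ∧ σ i = b := by
  classical
  have hxne : ∀ i j, i ≠ j → x i ≠ x j := fun i j hij =>
    (hanti i j hij _ (hl i).start _ (hl j).start).1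
  have hyne : ∀ i j, i ≠ j → y i ≠ y j := fun i j hij =>
    (hanti i j hij _ (hl i).stop _ (hl j).stop).1
  have hx' : ∀ i, ∃ k, x i = (![a false 0, a true 0, p false] : Fin 3 → L) k := by
    intro i
    obtain ⟨h1, h2⟩ := hx i
    generalize x i = z at h1 h2
    rcases z with ⟨_ | _, k⟩ | ⟨s, k, b⟩ | ⟨j⟩ | ⟨j, t⟩ | ⟨_ | _⟩ <;> simp [inA] at h1
    · exact ⟨0, by simp [h1]⟩
    · exact ⟨1, by simp [h1]⟩
    · exact ⟨2, rfl⟩
  have hy' : ∀ i, y i = c m ∨ y i = a true N ∨ y i = p true := by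
    intro i
    have h1 := hy i
    generalize y i = z at h1
    rcases z with ⟨_ | _, k⟩ | ⟨s, k, b⟩ | ⟨j⟩ | ⟨j, t⟩ | ⟨_ | _⟩ <;> simp [inZ] at h1
    · exact Or.inr (Or.inl (by simp [h1]))
    · exact Or.inl (by simp [h1])
    · exact Or.inr (Or.inr rfl)
  have hsx := surj3 _ _ hx' hxne
  obtain ⟨i0, h0⟩ := hsx 0
  obtain ⟨i1, h1⟩ := hsx 1
  obtain ⟨i2, h2⟩ := hsx 2
  simp only [Matrix.cons_val] at h0 h1 h2
  have h01 : i0 ≠ i1 := by rintro rfl; rw [h0] at h1; simp at h1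
  have h02 : i0 ≠ i2 := by rintro rfl; rw [h0] at h2; simp at h2
  have h12 : i1 ≠ i2 := by rintro rfl; rw [h1] at h2; simp at h2
  have hy2 : y i2 = p true := by
    have hl2 := hl i2
    rw [h2] at hl2
    by_contra hne
    obtain ⟨u, w, hu, hw, _, _, hadj⟩ := cross hl2 ({z | ∃ s, z = p s}) ⟨false, rfl⟩ (by
      rintro ⟨s, hs⟩
      rcases hy' i2 with h | h | h
      · rw [h] at hs; simp at hs
      · rw [h] at hs; simp at hs
      · exact hne h)
    obtain ⟨s, rfl⟩ := hu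
    rw [gG_adj] at hadj
    rcases w with ⟨s', k'⟩ | ⟨s', k', b'⟩ | ⟨j'⟩ | ⟨j', t⟩ | ⟨s'⟩ <;> simp [adj, adj0] at hadj
    exact hw ⟨s', rfl⟩
  have hy0 : y i0 = c m ∨ y i0 = a true N := by
    rcases hy' i0 with h | h | h
    · exact Or.inl h
    · exact Or.inr h
    · exact absurd (h.trans hy2.symm) (hyne _ _ h02)
  have hy1 : y i1 = c m ∨ y i1 = a true N := by
    rcases hy' i1 with h | h | h
    · exact Or.inl h
    · exact Or.inr h
    · exact absurd (h.trans hy2.symm) (hyne _ _ h12)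
  let S' : Bool → Set L := fun s => cond s (S i1) (S i0)
  have hS' : ∀ s, ∀ u ∈ S' s, ∀ w ∈ S' (!s), Anti (gG N lit) u w := by
    intro s u hu w hw
    cases s with
    | false => exact hanti i0 i1 h01 u hu w hw
    | true => exact hanti i1 i0 h01.symm u hu w hw
  have hl0 := hl i0
  have hl1 := hl i1
  rw [h0] at hl0
  rw [h1] at hl1
  have hlev := levels S' hS' (by
    intro s
    cases s with
    | false =>
      refine ⟨y i0, hl0, fun k hk => ?_, fun k b => ?_⟩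
      · rcases hy0 with h | h <;> rw [h] <;> simp
      · rcases hy0 with h | h <;> rw [h] <;> simp
    | true =>
      refine ⟨y i1, hl1, fun k hk => ?_, fun k b => ?_⟩
      · rcases hy1 with h | h <;> rw [h] <;> simp
        omega
      · rcases hy1 with h | h <;> rw [h] <;> simp) N le_rfl
  obtain ⟨hlev1, hlev2⟩ := hlev
  have hy0' : y i0 = c m := by
    rcases hy0 with h | h
    · exact h
    · exfalso
      have h3 := hl0.stop
      rw [h] at h3
      exact (hanti i0 i1 h01 _ h3 _ (hlev2 N le_rfl true)).1 rfl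
  rw [hy0'] at hl0
  refine ⟨fun i => decide (L.x true i true ∈ S i1), fun j hj => ?_⟩
  obtain ⟨t, i, b, h3, h4, h5⟩ := clause (m := m) S' hS' (by
    intro s z hz
    cases s with
    | false => exact hval i0 z hz
    | true => exact hval i1 z hz) hl0 hlev1 hlev2 hj
  refine ⟨t, i, b, h3, h4, ?_⟩
  cases b with
  | true =>
    simp only [decide_eq_true_eq]
    exact h5
  | false =>
    simp only [decide_eq_false_iff_not]
    intro h6
    obtain ⟨b', hb'⟩ := hlev1 i h4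
    cases b' with
    | true => exact (hanti i0 i1 h01 _ (hb' false) _ h5).2 (by simp [gG_adj, adj, adj0])
    | false => exact (hanti i0 i1 h01 _ (hb' false) _ h6).2 (by simp [gG_adj, adj, adj0])

theorem link_levels (s : Bool) (σ : ℕ → Bool) (S : Set L) (h1 : ∀ k ≤ N, a s k ∈ S)
    (h2 : ∀ k < N, L.x s k (σ k) ∈ S) : ∀ k ≤ N, Lnk (gG N lit) S (a s 0) (a s k) := by
  intro k
  induction k with
  | zero => intro _; exact Lnk.refl (h1 0 (by omega))
  | succ k ih =>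
    intro hk
    refine (ih (by omega)).trans ((Lnk.of_adj (v := L.x s k (σ k)) ?_ (h1 k (by omega))
      (h2 k (by omega))).trans (Lnk.of_adj ?_ (h2 k (by omega)) (h1 (k + 1) hk)))
    · simp [gG_adj, adj, adj0]
    · simp [gG_adj, adj, adj0]

theorem link_clauses (t : ℕ → ℕ) (S : Set L) (h1 : ∀ j ≤ m, c j ∈ S)
    (h2 : ∀ j < m, v j (t j) ∈ S) : ∀ j ≤ m, Lnk (gG N lit) S (c 0) (c j) := by
  intro j
  induction j with
  | zero => intro _; exact Lnk.refl (h1 0 (by omega))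
  | succ j ih =>
    intro hj
    refine (ih (by omega)).trans ((Lnk.of_adj (v := v j (t j)) ?_ (h1 j (by omega))
      (h2 j (by omega))).trans (Lnk.of_adj ?_ (h2 j (by omega)) (h1 (j + 1) hj)))
    · simp [gG_adj, adj, adj0]
    · simp [gG_adj, adj, adj0]

theorem complete (hσ : ∃ σ : ℕ → Bool, ∀ j < m, ∃ t i b, lit j t = some (i, b) ∧ i < N ∧ σ i = b) :
    ∃ (x y : Fin 3 → L) (S : Fin 3 → Set L),
      (∀ i, inA (x i) = true ∧ valid N m lit (x i) = true) ∧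
      (∀ i, inZ N m (y i) = true ∧ valid N m lit (y i) = true) ∧
      (∀ i, Lnk (gG N lit) (S i) (x i) (y i)) ∧
      (∀ i, ∀ z ∈ S i, valid N m lit z = true) ∧
      ∀ i j, i ≠ j → ∀ u ∈ S i, ∀ w ∈ S j, Anti (gG N lit) u w := by
  obtain ⟨σ, hσ⟩ := hσ
  have hσ' : ∀ j, ∃ t, j < m → ∃ i b, lit j t = some (i, b) ∧ i < N ∧ σ i = b := by
    intro j
    by_cases hj : j < m
    · obtain ⟨t, i, b, h⟩ := hσ j hj
      exact ⟨t, fun _ => ⟨i, b, h⟩⟩
    · exact ⟨0, fun h => absurd h hj⟩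
  choose t ht using hσ'
  let S0 : Set L := {z | (∃ k ≤ N, z = a false k) ∨ (∃ k < N, z = L.x false k (σ k)) ∨
    (∃ j ≤ m, z = c j) ∨ (∃ j < m, z = v j (t j))}
  let S1 : Set L := {z | (∃ k ≤ N, z = a true k) ∨ (∃ k < N, z = L.x true k (σ k))}
  let S2 : Set L := {z | ∃ s, z = p s}
  have hS01 : ∀ u ∈ S0, ∀ w ∈ S1, Anti (gG N lit) u w := by
    rintro u (⟨k, hk, rfl⟩ | ⟨k, hk, rfl⟩ | ⟨j, hj, rfl⟩ | ⟨j, hj, rfl⟩) w
      (⟨k', hk', rfl⟩ | ⟨k', hk', rfl⟩) <;>
      refine ⟨by simp, ?_⟩ <;> rw [gG_adj] <;> simp [adj, adj0]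
    · refine ⟨?_, ?_⟩
      · rintro rfl
        rfl
      · rintro rfl
        rfl
    · obtain ⟨i, b, h1, h2, h3⟩ := ht j hj
      intro h
      rw [h1] at h
      simp only [Option.some.injEq, Prod.mk.injEq] at h
      obtain ⟨rfl, h⟩ := h
      rw [h3] at h
      exact absurd h (by simp)
  have hS02 : ∀ u ∈ S0, ∀ w ∈ S2, Anti (gG N lit) u w := by
    rintro u (⟨k, hk, rfl⟩ | ⟨k, hk, rfl⟩ | ⟨j, hj, rfl⟩ | ⟨j, hj, rfl⟩) w ⟨s, rfl⟩ <;>
      refine ⟨by simp, ?_⟩ <;> rw [gG_adj] <;> simp [adj, adj0]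
  have hS12 : ∀ u ∈ S1, ∀ w ∈ S2, Anti (gG N lit) u w := by
    rintro u (⟨k, hk, rfl⟩ | ⟨k, hk, rfl⟩) w ⟨s, rfl⟩ <;>
      refine ⟨by simp, ?_⟩ <;> rw [gG_adj] <;> simp [adj, adj0]
  refine ⟨![a false 0, a true 0, p false], ![c m, a true N, p true], ![S0, S1, S2],
    ?_, ?_, ?_, ?_, ?_⟩
  · intro i
    fin_cases i <;> simp [inA, valid]
  · intro i
    fin_cases i <;> simp [inZ, valid]
  · intro i
    fin_cases i
    · have h1 := link_levels (lit := lit) false σ S0 (fun k hk => Or.inl ⟨k, hk, rfl⟩)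
        (fun k hk => Or.inr (Or.inl ⟨k, hk, rfl⟩)) N le_rfl
      have h2 := link_clauses (N := N) (lit := lit) t S0
        (fun j hj => Or.inr (Or.inr (Or.inl ⟨j, hj, rfl⟩)))
        (fun j hj => Or.inr (Or.inr (Or.inr ⟨j, hj, rfl⟩))) m le_rfl
      exact h1.trans ((Lnk.of_adj (by simp [gG_adj, adj, adj0]) h1.stop h2.start).trans h2)
    · exact link_levels (lit := lit) true σ S1 (fun k hk => Or.inl ⟨k, hk, rfl⟩)
        (fun k hk => Or.inr ⟨k, hk, rfl⟩) N le_rfl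
    · exact Lnk.of_adj (by simp [gG_adj, adj, adj0]) ⟨false, rfl⟩ ⟨true, rfl⟩
  · intro i
    fin_cases i
    · rintro z (⟨k, hk, rfl⟩ | ⟨k, hk, rfl⟩ | ⟨j, hj, rfl⟩ | ⟨j, hj, rfl⟩)
      · simpa [valid] using hk
      · simpa [valid] using hk
      · simpa [valid] using hj
      · obtain ⟨i, b, h1, h2, h3⟩ := ht j hj
        simp [valid, hj, h1, h2]
    · rintro z (⟨k, hk, rfl⟩ | ⟨k, hk, rfl⟩)
      · simpa [valid] using hk
      · simpa [valid] using hk
    · rintro z ⟨s, rfl⟩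
      rfl
  · intro i j hij
    fin_cases i <;> fin_cases j
    · exact absurd rfl hij
    · exact hS01
    · exact hS02
    · exact fun u hu w hw => (hS01 w hw u hu).symm
    · exact absurd rfl hij
    · exact hS12
    · exact fun u hu w hw => (hS02 w hw u hu).symm
    · exact fun u hu w hw => (hS12 w hw u hu).symm
    · exact absurd rfl hij

/-- the vertices of the gadget graph -/
abbrev VV (N m : ℕ) (lit : ℕ → ℕ → Option (ℕ × Bool)) : Type := {z : L // valid N m lit z = true}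

/-- the gadget graph -/
def G0 (N m : ℕ) (lit : ℕ → ℕ → Option (ℕ × Bool)) : SimpleGraph (VV N m lit) :=
  (gG N lit).comap Subtype.val

/-- sources -/
def A0 (N m : ℕ) (lit : ℕ → ℕ → Option (ℕ × Bool)) : Set (VV N m lit) := {z | inA z.1 = true}

/-- sinks -/
def Z0 (N m : ℕ) (lit : ℕ → ℕ → Option (ℕ × Bool)) : Set (VV N m lit) := {z | inZ N m z.1 = true}

theorem core : Three (G0 N m lit) (A0 N m lit) (Z0 N m lit) (Anti (G0 N m lit)) ↔
    ∃ σ : ℕ → Bool, ∀ j < m, ∃ t i b, lit j t = some (i, b) ∧ i < N ∧ σ i = b := by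
  unfold G0
  rw [three_comap _ _ Subtype.val_injective]
  constructor
  · rintro ⟨x, y, S, h1, h2, h3, h4, h5⟩
    refine sound x y S ?_ ?_ h3 ?_ h5
    · intro i
      obtain ⟨z, hz, hz'⟩ := h1 i
      rw [← hz']
      exact ⟨hz, z.2⟩
    · intro i
      obtain ⟨z, hz, hz'⟩ := h2 i
      rw [← hz']
      exact hz
    · intro i z hz
      obtain ⟨w, rfl⟩ := h4 i z hz
      exact w.2
  · intro h
    obtain ⟨x, y, S, h1, h2, h3, h4, h5⟩ := complete h
    exact ⟨x, y, S, fun i => ⟨⟨_, (h1 i).2⟩, (h1 i).1, rfl⟩, fun i => ⟨⟨_, (h2 i).2⟩, (h2 i).1, rfl⟩,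
      h3, fun i z hz => ⟨⟨z, h4 i z hz⟩, rfl⟩, h5⟩

end Pool.Agent.Y599.MM
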