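import Pool.Agent.NPC.Defs
import Pool.Agent.H671R2.ZDefs

/-!
# Three pairwise far-apart `A`-`Z` paths: definitions
-/

namespace Pool.Agent.Y599.MM

open Pool.Agent.NPC Pool.Agent.NPC.R671

/-- The walk `P` from `x` to `y` is an `A`-`Z` path: it is a path, `x` is its only vertex in `A` and
`y` is its only vertex in `Z`. -/
def IsAZPath {V : Type} (G : SimpleGraph V) (A Z : Set V) {x y : V} (P : G.Walk x y) : Prop :=
  P.IsPath ∧ (∀ v, (v ∈ P.support ∧ v ∈ A) ↔ v = x) ∧ (∀ v, (v ∈ P.support ∧ v ∈ Z) ↔ v = y)

/-- `G` has three `A`-`Z` paths with pairwise distances at least three. -/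
def HasThreePaths {V : Type} (G : SimpleGraph V) (A Z : Set V) : Prop :=
  ∃ (x y : Fin 3 → V) (P : ∀ i, G.Walk (x i) (y i)), (∀ i, IsAZPath G A Z (P i)) ∧
    ∀ i j, i ≠ j → ∀ u ∈ (P i).support, ∀ v ∈ (P j).support, 3 ≤ G.edist u v

/-- The characteristic vector of a set of vertices, as a list. -/
noncomputable def charVec {n : ℕ} (A : Set (Fin n)) : List Bool :=
  open Classical in List.ofFn fun i => decide (i ∈ A)

/-- The decision problem MM3: given (the adjacency matrix of) a graph `G` on `{0, ..., n-1}` and (the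
characteristic vectors of) two sets `A`, `Z` of vertices, are there three `A`-`Z` paths with pairwise
distances at least three? -/
def MM3 (I : List (List Bool) × List Bool × List Bool) : Prop :=
  ∃ (n : ℕ) (G : SimpleGraph (Fin n)) (A Z : Set (Fin n)),
    I = (adjMatrix G, charVec A, charVec Z) ∧ HasThreePaths G A Z

end Pool.Agent.Y599.MM
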