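import Pool.Agent.Y599.MM.Gen

/-!
# Three far-apart paths: the gadget graph
-/

namespace Pool.Agent.Y599.MM

open Pool.Agent.NPC Pool.Agent.NPC.R671

theorem Lnk.mapf {V W : Type} {G : SimpleGraph V} {f : W → V} {S : Set W}
    {u v : W} (h : Lnk (G.comap f) S u v) : Lnk G (f '' S) (f u) (f v) := by
  obtain ⟨P, hP⟩ := h
  refine ⟨P.map (⟨f, fun h => h⟩ : (G.comap f) →g G), fun w hw => ?_⟩
  rw [SimpleGraph.Walk.support_map, List.mem_map] at hw
  obtain ⟨z, hz, rfl⟩ := hw
  exact ⟨z, hP z hz, rfl⟩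

theorem Lnk.lift {V W : Type} {G : SimpleGraph V} {f : W → V} (hf : Function.Injective f)
    {S : Set V} (hS : ∀ z ∈ S, z ∈ Set.range f) {u' v' : V} (h : Lnk G S u' v') :
    ∀ u v : W, f u = u' → f v = v' → Lnk (G.comap f) (f ⁻¹' S) u v := by
  obtain ⟨P, hP⟩ := h
  induction P with
  | nil =>
    intro u v hu hv
    have : u = v := hf (hu.trans hv.symm)
    subst this
    refine Lnk.refl ?_
    have := hP _ (SimpleGraph.Walk.start_mem_support _)
    rw [← hu] at this
    exact this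
  | cons hab P ih =>
    rename_i a b c
    intro u v hu hv
    have ha : a ∈ S := hP _ (by simp)
    have hb : b ∈ S := hP _ (by simp)
    obtain ⟨w, rfl⟩ := hS b hb
    have h1 := ih (fun w hw => hP w (by simp [hw])) w v rfl hv
    subst hu
    exact Lnk.trans (Lnk.of_adj (G := G.comap f) (by simpa using hab) ha hb) h1

theorem three_comap {V W : Type} (G : SimpleGraph V) (f : W → V) (hf : Function.Injective f)
    (A Z : Set W) : Three (G.comap f) A Z (Anti (G.comap f)) ↔
      ∃ (x y : Fin 3 → V) (S : Fin 3 → Set V), (∀ i, x i ∈ f '' A) ∧ (∀ i, y i ∈ f '' Z) ∧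
        (∀ i, Lnk G (S i) (x i) (y i)) ∧ (∀ i, ∀ z ∈ S i, z ∈ Set.range f) ∧
        ∀ i j, i ≠ j → ∀ u ∈ S i, ∀ v ∈ S j, Anti G u v := by
  constructor
  · rintro ⟨x, y, S, h1, h2, h3, h4⟩
    refine ⟨fun i => f (x i), fun i => f (y i), fun i => f '' S i, fun i => ⟨_, h1 i, rfl⟩,
      fun i => ⟨_, h2 i, rfl⟩, fun i => (h3 i).mapf, ?_, ?_⟩
    · rintro i _ ⟨w, _, rfl⟩
      exact ⟨w, rfl⟩
    · rintro i j hij _ ⟨u, hu, rfl⟩ _ ⟨v, hv, rfl⟩
      obtain ⟨h5, h6⟩ := h4 i j hij u hu v hv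
      exact ⟨fun h => h5 (hf h), h6⟩
  · rintro ⟨x, y, S, h1, h2, h3, h4, h5⟩
    choose a haA ha using h1
    choose z hzZ hz using h2
    refine ⟨a, z, fun i => f ⁻¹' (S i), haA, hzZ, fun i => (h3 i).lift hf (h4 i) _ _ (ha i) (hz i), ?_⟩
    intro i j hij u hu v hv
    obtain ⟨h6, h7⟩ := h5 i j hij _ hu _ hv
    exact ⟨fun h => h6 (by rw [h]), h7⟩

/-- labels -/
inductive L
  | a (s : Bool) (i : ℕ)
  | x (s : Bool) (i : ℕ) (b : Bool)
  | c (j : ℕ)
  | v (j k : ℕ)
  | p (s : Bool)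
  deriving DecidableEq

open L

section

variable (N m : ℕ) (lit : ℕ → ℕ → Option (ℕ × Bool))

/-- half of the adjacency -/
def adj0 : L → L → Bool
  | .a s i, .x s' i' _ => decide (s = s') && (decide (i' = i) || decide (i = i' + 1))
  | .x s i b, .x s' i' b' => decide (i = i') && (decide (s' = !s) && decide (b' = !b))
  | .a s i, .c j => !s && (decide (i = N) && decide (j = 0))
  | .c j, .v j' _ => decide (j = j') || decide (j = j' + 1)
  | .v j k, .x _ i b => decide (lit j k = some (i, !b))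
  | .p s, .p s' => decide (s' = !s)
  | _, _ => false

/-- adjacency -/
def adj (u w : L) : Bool := adj0 N lit u w || adj0 N lit w u

theorem adj_symm (u w : L) : adj N lit u w = adj N lit w u := by
  unfold adj
  rw [Bool.or_comm]

theorem adj_irrefl (u : L) : adj N lit u u = false := by
  unfold adj
  cases u <;> simp [adj0]

/-- the gadget graph on all labels -/
def gG : SimpleGraph L where
  Adj u w := adj N lit u w = true
  symm := ⟨fun u w h => by rw [adj_symm]; exact h⟩
  loopless := ⟨fun u h => by rw [adj_irrefl] at h; exact absurd h (by simp)⟩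

theorem gG_adj {u w : L} : (gG N lit).Adj u w ↔ adj N lit u w = true := Iff.rfl

/-- the labels of vertices -/
def valid : L → Bool
  | .a _ i => decide (i ≤ N)
  | .x _ i _ => decide (i < N)
  | .c j => decide (j ≤ m)
  | .v j k => decide (j < m) && (lit j k).any (fun l => decide (l.1 < N))
  | .p _ => true

/-- sources -/
def inA : L → Bool
  | .a _ i => decide (i = 0)
  | .p s => !s
  | _ => false

/-- sinks -/
def inZ : L → Bool
  | .a s i => s && decide (i = N)
  | .c j => decide (j = m)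
  | .p s => s
  | _ => false

end

section sound

variable {N m : ℕ} {lit : ℕ → ℕ → Option (ℕ × Bool)}

/-- an edge of a walk leaving a set -/
theorem cross {V : Type} {G : SimpleGraph V} {S : Set V} {u v : V} (h : Lnk G S u v) (D : Set V)
    (hu : u ∈ D) (hv : v ∉ D) : ∃ a b, a ∈ D ∧ b ∉ D ∧ a ∈ S ∧ b ∈ S ∧ G.Adj a b := by
  obtain ⟨P, hP⟩ := h
  obtain ⟨d, hd, h1, h2⟩ := P.exists_boundary_dart D hu hv
  exact ⟨d.fst, d.snd, h1, h2, hP _ (P.dart_fst_mem_support_of_mem_darts hd),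
    hP _ (P.dart_snd_mem_support_of_mem_darts hd), d.adj⟩

/-- the level step -/
theorem level (S : Bool → Set L) (hanti : ∀ s, ∀ u ∈ S s, ∀ w ∈ S (!s), Anti (gG N lit) u w)
    (s : Bool) (i i' : ℕ) (hi : i < N) (hi' : i' ≤ i + 1) {y : L}
    (h : Lnk (gG N lit) (S s) (a s 0) y) (hy : ∀ k, k < N → y ≠ a s k) (hy' : ∀ k b, y ≠ x s k b)
    (h1 : ∀ k < i', ∃ b, ∀ s, x s k b ∈ S s) (h2 : ∀ k < i', ∀ s, a s k ∈ S s) :
    (∃ k b, i' ≤ k ∧ k ≤ i ∧ x s k b ∈ S s) ∨ (∃ k, k < i' ∧ i ≤ k ∧ a s (k + 1) ∈ S s) := by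
  obtain ⟨u, w, hu, hw, huS, hwS, hadj⟩ := cross h
    ({z | (∃ k, k ≤ i ∧ z = a s k) ∨ (∃ k b, k < i' ∧ z = x s k b)})
    (Or.inl ⟨0, Nat.zero_le _, rfl⟩) (by
      rintro (⟨k, hk, rfl⟩ | ⟨k, b, _, rfl⟩)
      · exact hy k (by omega) rfl
      · exact hy' k b rfl)
  rw [gG_adj] at hadj
  rcases hu with ⟨k, hk, rfl⟩ | ⟨k, b, hk, rfl⟩
  · rcases w with ⟨s', k'⟩ | ⟨s', k', b⟩ | ⟨j⟩ | ⟨j, t⟩ | ⟨s'⟩
    · simp [adj, adj0] at hadj
    · simp only [adj, adj0, Bool.or_false, Bool.and_eq_true, Bool.or_eq_true,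
        decide_eq_true_eq] at hadj
      obtain ⟨rfl, hk'⟩ := hadj
      by_cases h3 : k' < i'
      · exact absurd (Or.inr ⟨k', b, h3, rfl⟩) hw
      · exact Or.inl ⟨k', b, by omega, by omega, hwS⟩
    · simp only [adj, adj0, Bool.or_false, Bool.and_eq_true, decide_eq_true_eq] at hadj
      omega
    · simp [adj, adj0] at hadj
    · simp [adj, adj0] at hadj
  · obtain ⟨b', hb'⟩ := h1 k hk
    have hbb : b' = b := by
      by_contra hne
      have hne' : b' = !b := by
        cases b <;> cases b' <;> simp_all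
      subst hne'
      exact (hanti s _ huS _ (hb' (!s))).2 (by simp [gG_adj, adj, adj0])
    subst hbb
    rcases w with ⟨s', k'⟩ | ⟨s', k', b⟩ | ⟨j⟩ | ⟨j, t⟩ | ⟨s'⟩
    · simp only [adj, adj0, Bool.false_or, Bool.and_eq_true, Bool.or_eq_true,
        decide_eq_true_eq] at hadj
      obtain ⟨rfl, hk'⟩ := hadj
      by_cases h3 : k' ≤ i
      · exact absurd (Or.inl ⟨k', h3, rfl⟩) hw
      · refine Or.inr ⟨k, hk, by omega, ?_⟩
        have : k' = k + 1 := by omega
        rw [← this]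
        exact hwS
    · exfalso
      have h3 : k = k' ∧ s' = !s := by
        simp only [adj, adj0, Bool.and_eq_true, Bool.or_eq_true,
          decide_eq_true_eq] at hadj
        rcases hadj with h4 | h4
        · exact ⟨h4.1, h4.2.1⟩
        · refine ⟨h4.1.symm, ?_⟩
          rw [h4.2.1, Bool.not_not]
      obtain ⟨rfl, rfl⟩ := h3
      exact (hanti s _ hwS _ (h2 k hk (!s))).2 (by simp [gG_adj, adj, adj0])
    · simp [adj, adj0] at hadj
    · exfalso
      have h4 := hb' (!s)
      refine (hanti s _ hwS _ h4).2 ?_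
      rw [gG_adj]
      simp only [adj, adj0, Bool.false_or, Bool.or_false] at hadj ⊢
      exact hadj
    · simp [adj, adj0] at hadj

/-- all levels -/
theorem levels (S : Bool → Set L) (hanti : ∀ s, ∀ u ∈ S s, ∀ w ∈ S (!s), Anti (gG N lit) u w)
    (h : ∀ s, ∃ y, Lnk (gG N lit) (S s) (a s 0) y ∧ (∀ k, k < N → y ≠ a s k) ∧
      (∀ k b, y ≠ x s k b)) :
    ∀ i ≤ N, (∀ k < i, ∃ b, ∀ s, x s k b ∈ S s) ∧ (∀ k ≤ i, ∀ s, a s k ∈ S s) := by
  intro i
  induction i with
  | zero =>
    intro _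
    refine ⟨fun k hk => absurd hk (by omega), fun k hk s => ?_⟩
    obtain ⟨y, h1, _⟩ := h s
    have : k = 0 := by omega
    subst this
    exact h1.start
  | succ i ih =>
    intro hi
    obtain ⟨ih1, ih2⟩ := ih (by omega)
    have e1 : ∀ s, ∃ b, x s i b ∈ S s := by
      intro s
      obtain ⟨y, h1, h2, h3⟩ := h s
      rcases level S hanti s i i (by omega) (by omega) h1 h2 h3 ih1 (fun k hk => ih2 k hk.le) with
        ⟨k, b, h4, h5, h6⟩ | ⟨k, h4, h5, _⟩
      · have : k = i := by omega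
        subst this
        exact ⟨b, h6⟩
      · omega
    have e2 : ∃ b, ∀ s, x s i b ∈ S s := by
      obtain ⟨b, hb⟩ := e1 false
      obtain ⟨b', hb'⟩ := e1 true
      have hbb : b' = b := by
        by_contra hne
        have hne' : b' = !b := by
          cases b <;> cases b' <;> simp_all
        subst hne'
        exact (hanti false _ hb _ hb').2 (by simp [gG_adj, adj, adj0])
      subst hbb
      exact ⟨b', fun s => by cases s; exact hb; exact hb'⟩
    have e3 : ∀ k < i + 1, ∃ b, ∀ s, x s k b ∈ S s := by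
      intro k hk
      rcases Nat.lt_succ_iff_lt_or_eq.1 hk with hk | rfl
      · exact ih1 k hk
      · exact e2
    refine ⟨e3, fun k hk s => ?_⟩
    rcases Nat.lt_succ_iff_lt_or_eq.1 (Nat.lt_succ_of_le hk) with hk | rfl
    · exact ih2 k (by omega) s
    · obtain ⟨y, h1, h2, h3⟩ := h s
      rcases level S hanti s i (i + 1) (by omega) (by omega) h1 h2 h3 e3 (fun k hk => ih2 k (by omega)) with
        ⟨k, b, h4, h5, h6⟩ | ⟨k, h4, h5, h6⟩
      · omega
      · have : k = i := by omega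
        subst this
        exact h6

/-- the clause step -/
theorem clause (S : Bool → Set L) (hanti : ∀ s, ∀ u ∈ S s, ∀ w ∈ S (!s), Anti (gG N lit) u w)
    (hval : ∀ s, ∀ z ∈ S s, valid N m lit z = true)
    (hl : Lnk (gG N lit) (S false) (a false 0) (c m))
    (h1 : ∀ k < N, ∃ b, ∀ s, x s k b ∈ S s) (h2 : ∀ k ≤ N, ∀ s, a s k ∈ S s) {j : ℕ} (hj : j < m) :
    ∃ t i b, lit j t = some (i, b) ∧ i < N ∧ x true i b ∈ S true := by
  obtain ⟨u, w, hu, hw, huS, hwS, hadj⟩ := cross hl
    ({z | (∃ k, z = a false k) ∨ (∃ k b, z = x false k b) ∨ (∃ i, i ≤ j ∧ z = c i) ∨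
      (∃ i t, i < j ∧ z = v i t)})
    (Or.inl ⟨0, rfl⟩) (by
      rintro (⟨k, hk⟩ | ⟨k, b, hk⟩ | ⟨i, hi, hk⟩ | ⟨i, t, _, hk⟩)
      · exact absurd hk (by simp)
      · exact absurd hk (by simp)
      · simp only [L.c.injEq] at hk
        omega
      · exact absurd hk (by simp))
  rw [gG_adj] at hadj
  have key : ∀ j t, v j t ∈ S false → ∃ i b, lit j t = some (i, b) ∧ i < N ∧
      ∀ s, x s i b ∈ S s := by
    intro j t hjt
    have h3 := hval false _ hjt
    simp only [valid, Bool.and_eq_true, decide_eq_true_eq] at h3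
    obtain ⟨_, h3⟩ := h3
    rw [Option.any_eq_true] at h3
    obtain ⟨⟨i, b⟩, h4, h5⟩ := h3
    simp only [decide_eq_true_eq] at h5
    refine ⟨i, b, h4, h5, ?_⟩
    obtain ⟨b', hb'⟩ := h1 i h5
    have hbb : b' = b := by
      by_contra hne
      have hne' : b' = !b := by
        cases b <;> cases b' <;> simp_all
      subst hne'
      exact (hanti false _ hjt _ (hb' true)).2 (by simp [gG_adj, adj, adj0, h4])
    subst hbb
    exact hb'
  have hx : ∀ k b, x false k b ∈ S false → x true k b ∈ S true := by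
    intro k b hk
    have h3 := hval false _ hk
    simp only [valid, decide_eq_true_eq] at h3
    obtain ⟨b', hb'⟩ := h1 k h3
    have hbb : b' = b := by
      by_contra hne
      have hne' : b' = !b := by
        cases b <;> cases b' <;> simp_all
      subst hne'
      exact (hanti false _ hk _ (hb' true)).2 (by simp [gG_adj, adj, adj0])
    subst hbb
    exact hb' true
  have hx2 : ∀ k b, x true k b ∉ S false := by
    intro k b hk
    have h3 := hval false _ hk
    simp only [valid, decide_eq_true_eq] at h3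
    exact (hanti false _ hk _ (h2 k h3.le true)).2 (by simp [gG_adj, adj, adj0])
  rcases hu with ⟨k, rfl⟩ | ⟨k, b, rfl⟩ | ⟨i, hi, rfl⟩ | ⟨i, t, hi, rfl⟩
  · exfalso
    rcases w with ⟨s', k'⟩ | ⟨s', k', b⟩ | ⟨j'⟩ | ⟨j', t⟩ | ⟨s'⟩
    · simp [adj, adj0] at hadj
    · simp only [adj, adj0, Bool.or_false, Bool.and_eq_true, Bool.or_eq_true,
        decide_eq_true_eq] at hadj
      obtain ⟨rfl, hk'⟩ := hadj
      exact hw (Or.inr (Or.inl ⟨k', b, rfl⟩))
    · simp only [adj, adj0, Bool.or_false, Bool.and_eq_true, decide_eq_true_eq] at hadj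
      exact hw (Or.inr (Or.inr (Or.inl ⟨j', by omega, rfl⟩)))
    · simp [adj, adj0] at hadj
    · simp [adj, adj0] at hadj
  · exfalso
    rcases w with ⟨s', k'⟩ | ⟨s', k', b'⟩ | ⟨j'⟩ | ⟨j', t⟩ | ⟨s'⟩
    · simp only [adj, adj0, Bool.false_or, Bool.and_eq_true, Bool.or_eq_true,
        decide_eq_true_eq] at hadj
      obtain ⟨rfl, hk'⟩ := hadj
      exact hw (Or.inl ⟨k', rfl⟩)
    · have h3 : s' = true := by
        simp only [adj, adj0, Bool.and_eq_true, Bool.or_eq_true,
          decide_eq_true_eq] at hadj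
        rcases hadj with h4 | h4
        · exact h4.2.1
        · have h5 := h4.2.1
          cases s' with
          | true => rfl
          | false => exact absurd h5 (by decide)
      subst h3
      exact hx2 _ _ hwS
    · simp [adj, adj0] at hadj
    · refine (hanti false _ hwS _ (hx _ _ huS)).2 ?_
      rw [gG_adj]
      simp only [adj, adj0, Bool.false_or, Bool.or_false] at hadj ⊢
      exact hadj
    · simp [adj, adj0] at hadj
  · rcases w with ⟨s', k'⟩ | ⟨s', k', b'⟩ | ⟨j'⟩ | ⟨j', t⟩ | ⟨s'⟩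
    · exfalso
      simp only [adj, adj0, Bool.false_or, Bool.and_eq_true, Bool.not_eq_true', decide_eq_true_eq] at hadj
      obtain ⟨rfl, _⟩ := hadj
      exact hw (Or.inl ⟨k', rfl⟩)
    · simp [adj, adj0] at hadj
    · simp [adj, adj0] at hadj
    · simp only [adj, adj0, Bool.or_false, Bool.or_eq_true, decide_eq_true_eq] at hadj
      by_cases h3 : j' < j
      · exact absurd (Or.inr (Or.inr (Or.inr ⟨j', t, h3, rfl⟩))) hw
      · have h4 : j' = j := by omega
        subst h4
        obtain ⟨i', b, h5, h6, h7⟩ := key _ _ hwS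
        exact ⟨t, i', b, h5, h6, h7 true⟩
    · simp [adj, adj0] at hadj
  · exfalso
    rcases w with ⟨s', k'⟩ | ⟨s', k', b'⟩ | ⟨j'⟩ | ⟨j', t'⟩ | ⟨s'⟩
    · simp [adj, adj0] at hadj
    · cases s' with
      | true => exact hx2 _ _ hwS
      | false => exact hw (Or.inr (Or.inl ⟨k', b', rfl⟩))
    · simp only [adj, adj0, Bool.false_or, Bool.or_eq_true, decide_eq_true_eq] at hadj
      exact hw (Or.inr (Or.inr (Or.inl ⟨j', by omega, rfl⟩)))
    · simp [adj, adj0] at hadj
    · simp [adj, adj0] at hadj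

end sound

end Pool.Agent.Y599.MM
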