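import Pool.Agent.Y599.MM.Defs

/-!
# Three far-apart paths: general facts
-/

namespace Pool.Agent.Y599.MM

open Pool.Agent.NPC Pool.Agent.NPC.R671

/-- distance at least three -/
def Far {V : Type} (G : SimpleGraph V) (u v : V) : Prop :=
  u ≠ v ∧ ¬ G.Adj u v ∧ ∀ w, ¬ (G.Adj u w ∧ G.Adj w v)

theorem far_iff {V : Type} (G : SimpleGraph V) (u v : V) : 3 ≤ G.edist u v ↔ Far G u v := by
  constructor
  · intro h
    refine ⟨?_, ?_, ?_⟩
    · rintro rfl
      rw [SimpleGraph.edist_self] at h
      exact absurd h (by norm_num)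
    · intro hadj
      have h1 := SimpleGraph.Walk.edist_le (SimpleGraph.Walk.cons hadj SimpleGraph.Walk.nil)
      have h2 := h.trans h1
      simp only [SimpleGraph.Walk.length_cons, SimpleGraph.Walk.length_nil] at h2
      norm_num at h2
    · rintro w ⟨h3, h4⟩
      have h1 := SimpleGraph.Walk.edist_le (SimpleGraph.Walk.cons h3
        (SimpleGraph.Walk.cons h4 SimpleGraph.Walk.nil))
      have h2 := h.trans h1
      simp only [SimpleGraph.Walk.length_cons, SimpleGraph.Walk.length_nil] at h2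
      norm_num at h2
  · rintro ⟨h1, h2, h3⟩
    by_contra hlt
    rw [not_le] at hlt
    have hne : G.edist u v ≠ ⊤ := ne_top_of_lt hlt
    obtain ⟨p, hp⟩ := SimpleGraph.exists_walk_of_edist_ne_top hne
    rw [← hp] at hlt
    have hlt' : p.length < 3 := by exact_mod_cast hlt
    cases p with
    | nil => exact h1 rfl
    | cons a p =>
      cases p with
      | nil => exact h2 a
      | cons b p =>
        cases p with
        | nil => exact h3 _ ⟨a, b⟩
        | cons c p =>
          simp only [SimpleGraph.Walk.length_cons] at hlt'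
          omega

/-- a walk inside a set of vertices -/
def Lnk {V : Type} (G : SimpleGraph V) (S : Set V) (u v : V) : Prop :=
  ∃ W : G.Walk u v, ∀ w ∈ W.support, w ∈ S

theorem Lnk.refl {V : Type} {G : SimpleGraph V} {S : Set V} {u : V} (h : u ∈ S) : Lnk G S u u :=
  ⟨SimpleGraph.Walk.nil, by simpa using h⟩

theorem Lnk.trans {V : Type} {G : SimpleGraph V} {S : Set V} {u v w : V} (h : Lnk G S u v)
    (h' : Lnk G S v w) : Lnk G S u w := by
  obtain ⟨W, hW⟩ := h
  obtain ⟨W', hW'⟩ := h'
  refine ⟨W.append W', fun x hx => ?_⟩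
  rw [SimpleGraph.Walk.mem_support_append_iff] at hx
  rcases hx with hx | hx
  · exact hW x hx
  · exact hW' x hx

theorem Lnk.of_adj {V : Type} {G : SimpleGraph V} {S : Set V} {u v : V} (h : G.Adj u v)
    (hu : u ∈ S) (hv : v ∈ S) : Lnk G S u v :=
  ⟨SimpleGraph.Walk.cons h SimpleGraph.Walk.nil, by
    intro w hw
    simp only [SimpleGraph.Walk.support_cons, SimpleGraph.Walk.support_nil, List.mem_cons,
      List.not_mem_nil, or_false] at hw
    rcases hw with rfl | rfl <;> assumption⟩

theorem Lnk.start {V : Type} {G : SimpleGraph V} {S : Set V} {u v : V} (h : Lnk G S u v) :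
    u ∈ S := by
  obtain ⟨W, hW⟩ := h
  exact hW _ W.start_mem_support

/-- From a walk from `A` to `Z` we get an `A`-`Z` path. -/
theorem exists_azpath {V : Type} (G : SimpleGraph V) (A Z S : Set V) {x y : V} (hx : x ∈ A)
    (hy : y ∈ Z) (h : Lnk G S x y) : ∃ (x' y' : V) (P : G.Walk x' y'), IsAZPath G A Z P ∧
      ∀ w ∈ P.support, w ∈ S := by
  classical
  let Q : ℕ → Prop := fun k => ∃ (x' y' : V) (P : G.Walk x' y'), x' ∈ A ∧ y' ∈ Z ∧
    P.length = k ∧ ∀ w ∈ P.support, w ∈ S
  have hQ : ∃ k, Q k := by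
    obtain ⟨W, hW⟩ := h
    exact ⟨_, x, y, W, hx, hy, rfl, hW⟩
  have hmin : ∀ k, Q k → Nat.find hQ ≤ k := fun k hk => Nat.find_min' hQ hk
  obtain ⟨x', y', P, h1, h2, h3, h4⟩ := Nat.find_spec hQ
  have hb1 : P.bypass.length = Nat.find hQ := by
    refine le_antisymm (P.length_bypass_le.trans h3.le) (hmin _ ⟨x', y', P.bypass, h1, h2, rfl, ?_⟩)
    intro w hw
    exact h4 w (P.support_bypass_subset hw)
  refine ⟨x', y', P.bypass, ⟨P.bypass_isPath, ?_, ?_⟩, fun w hw =>
    h4 w (P.support_bypass_subset hw)⟩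
  · intro v
    constructor
    · rintro ⟨hv, hvA⟩
      have h5 := congrArg SimpleGraph.Walk.length (P.bypass.take_spec hv)
      rw [SimpleGraph.Walk.length_append] at h5
      have h6 := hmin _ ⟨v, y', P.bypass.dropUntil v hv, hvA, h2, rfl, fun w hw =>
        h4 w (P.support_bypass_subset (P.bypass.support_dropUntil_subset_support hv hw))⟩
      have h7 : (P.bypass.takeUntil v hv).length = 0 := by omega
      exact (SimpleGraph.Walk.eq_of_length_eq_zero h7).symm
    · rintro rfl
      exact ⟨SimpleGraph.Walk.start_mem_support _, h1⟩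
  · intro v
    constructor
    · rintro ⟨hv, hvA⟩
      have h5 := congrArg SimpleGraph.Walk.length (P.bypass.take_spec hv)
      rw [SimpleGraph.Walk.length_append] at h5
      have h6 := hmin _ ⟨x', v, P.bypass.takeUntil v hv, h1, hvA, rfl, fun w hw =>
        h4 w (P.support_bypass_subset (P.bypass.support_takeUntil_subset_support hv hw))⟩
      have h7 : (P.bypass.dropUntil v hv).length = 0 := by omega
      exact SimpleGraph.Walk.eq_of_length_eq_zero h7
    · rintro rfl
      exact ⟨SimpleGraph.Walk.end_mem_support _, h2⟩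

/-- three walks from `A` to `Z` inside sets which are pairwise related by `R` -/
def Three {V : Type} (G : SimpleGraph V) (A Z : Set V) (R : V → V → Prop) : Prop :=
  ∃ (x y : Fin 3 → V) (S : Fin 3 → Set V), (∀ i, x i ∈ A) ∧ (∀ i, y i ∈ Z) ∧
    (∀ i, Lnk G (S i) (x i) (y i)) ∧ ∀ i j, i ≠ j → ∀ u ∈ S i, ∀ v ∈ S j, R u v

theorem hasThreePaths_iff {V : Type} (G : SimpleGraph V) (A Z : Set V) :
    HasThreePaths G A Z ↔ Three G A Z (Far G) := by
  constructor
  · rintro ⟨x, y, P, h1, h2⟩
    refine ⟨x, y, fun i => {v | v ∈ (P i).support}, fun i => ?_, fun i => ?_,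
      fun i => ⟨P i, fun w hw => hw⟩, fun i j hij u hu v hv => (far_iff _ _ _).1 (h2 i j hij u hu v hv)⟩
    · exact (((h1 i).2.1 (x i)).2 rfl).2
    · exact (((h1 i).2.2 (y i)).2 rfl).2
  · rintro ⟨x, y, S, h1, h2, h3, h4⟩
    choose x' y' P hP hPS using fun i => exists_azpath G A Z (S i) (h1 i) (h2 i) (h3 i)
    exact ⟨x', y', P, hP, fun i j hij u hu v hv =>
      (far_iff _ _ _).2 (h4 i j hij u (hPS i u hu) v (hPS j v hv))⟩

theorem Lnk.map {V W : Type} {G : SimpleGraph V} {H : SimpleGraph W} (e : G ≃g H) {S : Set V}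
    {u v : V} (h : Lnk G S u v) : Lnk H (e '' S) (e u) (e v) := by
  obtain ⟨P, hP⟩ := h
  refine ⟨P.map e.toHom, fun w hw => ?_⟩
  rw [SimpleGraph.Walk.support_map, List.mem_map] at hw
  obtain ⟨z, hz, rfl⟩ := hw
  exact ⟨z, hP z hz, rfl⟩

theorem Far.map {V W : Type} {G : SimpleGraph V} {H : SimpleGraph W} (e : G ≃g H)
    {u v : V} (h : Far G u v) : Far H (e u) (e v) := by
  obtain ⟨h1, h2, h3⟩ := h
  refine ⟨fun h => h1 (e.injective h), fun h => h2 (e.map_adj_iff.1 h), fun w hw => ?_⟩
  obtain ⟨z, rfl⟩ := e.surjective w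
  exact h3 z ⟨e.map_adj_iff.1 hw.1, e.map_adj_iff.1 hw.2⟩

theorem Three.map {V W : Type} {G : SimpleGraph V} {H : SimpleGraph W} (e : G ≃g H)
    {A Z : Set V} {A' Z' : Set W} (hA : ∀ v, v ∈ A → e v ∈ A') (hZ : ∀ v, v ∈ Z → e v ∈ Z')
    (h : Three G A Z (Far G)) : Three H A' Z' (Far H) := by
  obtain ⟨x, y, S, h1, h2, h3, h4⟩ := h
  refine ⟨fun i => e (x i), fun i => e (y i), fun i => e '' S i, fun i => hA _ (h1 i),
    fun i => hZ _ (h2 i), fun i => (h3 i).map e, ?_⟩
  rintro i j hij _ ⟨u, hu, rfl⟩ _ ⟨v, hv, rfl⟩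
  exact (h4 i j hij u hu v hv).map e

theorem hasThreePaths_congr {V W : Type} {G : SimpleGraph V} {H : SimpleGraph W} (e : G ≃g H)
    {A Z : Set V} {A' Z' : Set W} (hA : ∀ v, v ∈ A ↔ e v ∈ A') (hZ : ∀ v, v ∈ Z ↔ e v ∈ Z') :
    HasThreePaths G A Z ↔ HasThreePaths H A' Z' := by
  rw [hasThreePaths_iff, hasThreePaths_iff]
  refine ⟨Three.map e (fun v => (hA v).1) (fun v => (hZ v).1), Three.map e.symm ?_ ?_⟩
  · intro w hw
    rw [hA]
    simpa using hw
  · intro w hw
    rw [hZ]
    simpa using hw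

/-! ### Subdivision -/

/-- vertices of the (double) subdivision -/
@[ext] structure SubV {V : Type} (G : SimpleGraph V) : Type where
  /-- the pair -/
  val : V × V
  prop : val.1 = val.2 ∨ G.Adj val.1 val.2

/-- adjacency in the subdivision: `(z, z)` is adjacent to `(x, y)` with `x ≠ y` if `z` is one of
`x`, `y` -/
def sadj {V : Type} (p q : V × V) : Prop := p.1 = p.2 ∧ q.1 ≠ q.2 ∧ (p.1 = q.1 ∨ p.1 = q.2)

/-- the subdivision -/
def sub {V : Type} (G : SimpleGraph V) : SimpleGraph (SubV G) where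
  Adj p q := sadj p.1 q.1 ∨ sadj q.1 p.1
  symm := ⟨fun _ _ h => h.symm⟩
  loopless := ⟨fun p h => by
    rcases h with h | h <;> exact h.2.1 h.1⟩

/-- an original vertex -/
def og {V : Type} {G : SimpleGraph V} (v : V) : SubV G := ⟨(v, v), Or.inl rfl⟩

/-- not equal and not adjacent -/
def Anti {V : Type} (G : SimpleGraph V) (u v : V) : Prop := u ≠ v ∧ ¬ G.Adj u v

theorem sub_two {V : Type} {G : SimpleGraph V} {u v : V} (h : G.Adj u v) :
    (sub G).Adj (og u) ⟨(u, v), Or.inr h⟩ ∧ (sub G).Adj ⟨(u, v), Or.inr h⟩ (og v) :=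
  ⟨Or.inl ⟨rfl, G.ne_of_adj h, Or.inl rfl⟩, Or.inr ⟨rfl, G.ne_of_adj h, Or.inr rfl⟩⟩

/-- from walks of the subdivision to walks of the graph -/
theorem lnk_of_sub {V : Type} {G : SimpleGraph V} {S : Set (SubV G)} : ∀ (n : ℕ) {p q : SubV G}
    (W : (sub G).Walk p q), W.length ≤ n → (∀ w ∈ W.support, w ∈ S) →
      ∀ u v : V, p = og u → q = og v → Lnk G {w | og w ∈ S} u v := by
  intro n
  induction n with
  | zero =>
    intro p q W hn hS u v hu hv
    cases W with
    | nil =>
      have huv : u = v := by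
        have := congrArg (fun z => z.1.1) (hu.symm.trans hv)
        exact this
      subst huv
      refine Lnk.refl ?_
      have := hS p (by simp)
      rw [hu] at this
      exact this
    | cons h W' => simp at hn
  | succ n ih =>
    intro p q W hn hS u v hu hv
    cases W with
    | nil =>
      have huv : u = v := by
        have := congrArg (fun z => z.1.1) (hu.symm.trans hv)
        exact this
      subst huv
      refine Lnk.refl ?_
      have := hS p (by simp)
      rw [hu] at this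
      exact this
    | @cons _ e _ h W' =>
      have huS : og u ∈ S := by
        have := hS p (by simp)
        rw [hu] at this
        exact this
      subst hu
      obtain ⟨⟨x, y⟩, he⟩ := e
      have hxy : x ≠ y ∧ (u = x ∨ u = y) := by
        rcases h with h | h
        · exact ⟨h.2.1, h.2.2⟩
        · exact absurd rfl h.2.1
      cases W' with
      | nil =>
        exfalso
        have h1 := congrArg (fun z => z.1.1) hv
        have h2 := congrArg (fun z => z.1.2) hv
        exact hxy.1 (h1.trans h2.symm)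
      | @cons _ f _ h' W'' =>
        obtain ⟨⟨z, z'⟩, hf⟩ := f
        have hz : z = z' ∧ (z = x ∨ z = y) := by
          rcases h' with h' | h'
          · exact absurd h'.1 hxy.1
          · exact ⟨h'.1, h'.2.2⟩
        obtain ⟨rfl, hz⟩ := hz
        have hadj : G.Adj x y := by
          rcases he with he | he
          · exact absurd he hxy.1
          · exact he
        have hn' : W''.length + 1 + 1 ≤ n + 1 := hn
        have hS'' : ∀ w ∈ W''.support, w ∈ S := fun w hw => hS w (by
          rw [SimpleGraph.Walk.support_cons]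
          refine List.mem_cons_of_mem _ ?_
          rw [SimpleGraph.Walk.support_cons]
          exact List.mem_cons_of_mem _ hw)
        have hrec := ih W'' (by omega) hS'' z v rfl hv
        refine Lnk.trans ?_ hrec
        have hzS : og z ∈ S := hrec.start
        rcases hxy.2 with rfl | rfl <;> rcases hz with rfl | rfl
        · exact Lnk.refl huS
        · exact Lnk.of_adj hadj huS hzS
        · exact Lnk.of_adj hadj.symm huS hzS
        · exact Lnk.refl huS

/-- from walks of the graph to walks of the subdivision -/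
theorem lnk_sub {V : Type} {G : SimpleGraph V} {S : Set V} {u v : V} (h : Lnk G S u v) :
    Lnk (sub G) {p | p.1.1 ∈ S ∧ p.1.2 ∈ S} (og u) (og v) := by
  obtain ⟨W, hW⟩ := h
  induction W with
  | nil => exact Lnk.refl (by
      have := hW _ (SimpleGraph.Walk.start_mem_support _)
      exact ⟨this, this⟩)
  | cons h W ih =>
    rename_i a b c
    have ha : a ∈ S := hW _ (by simp)
    have hb : b ∈ S := hW _ (by simp)
    have h1 := ih (fun w hw => hW w (by simp [hw]))
    obtain ⟨e1, e2⟩ := sub_two h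
    refine Lnk.trans (Lnk.trans (Lnk.of_adj e1 ?_ ?_) (Lnk.of_adj e2 ?_ ?_)) h1
    · exact ⟨ha, ha⟩
    · exact ⟨ha, hb⟩
    · exact ⟨ha, hb⟩
    · exact ⟨hb, hb⟩

theorem anti_of_far {V : Type} {G : SimpleGraph V} {u v : V} (h : Far (sub G) (og u) (og v)) :
    Anti G u v := by
  refine ⟨fun h' => h.1 (by rw [h']), fun h' => ?_⟩
  exact h.2.2 _ (sub_two h')

theorem far_of_anti {V : Type} {G : SimpleGraph V} {S T : Set V}
    (hST : ∀ u ∈ S, ∀ v ∈ T, Anti G u v) {p q : SubV G} (hp : p.1.1 ∈ S ∧ p.1.2 ∈ S)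
    (hq : q.1.1 ∈ T ∧ q.1.2 ∈ T) : Far (sub G) p q := by
  obtain ⟨⟨a, b⟩, hab⟩ := p
  obtain ⟨⟨c, d⟩, hcd⟩ := q
  obtain ⟨ha, hb⟩ := hp
  obtain ⟨hc, hd⟩ := hq
  simp only at ha hb hc hd
  have k1 := (hST a ha c hc).1
  have k2 := (hST a ha d hd).1
  have k3 := (hST b hb c hc).1
  have k4 := (hST b hb d hd).1
  refine ⟨?_, ?_, ?_⟩
  · intro h
    have := congrArg (fun z => z.1.1) h
    exact k1 this
  · rintro (h | h)
    · rcases h.2.2 with h' | h'
      · exact k1 h'
      · exact k2 h'
    · rcases h.2.2 with h' | h'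
      · exact k1 h'.symm
      · exact k3 h'.symm
  · rintro ⟨⟨x, y⟩, hxy⟩ ⟨h1, h2⟩
    rcases h1 with h1 | h1 <;> rcases h2 with h2 | h2
    · exact h1.2.1 h2.1
    · have e1 := h1.2.2
      have e2 := h2.2.2
      have e3 := h1.2.1
      simp only at e1 e2 e3
      rcases hxy with hxy | hxy
      · exact e3 hxy
      · rcases e1 with e1 | e1 <;> rcases e2 with e2 | e2
        · exact k1 (e1.trans e2.symm)
        · exact (hST a ha c hc).2 (by rw [e1, e2]; exact hxy)
        · exact (hST a ha c hc).2 (by rw [e1, e2]; exact hxy.symm)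
        · exact k1 (e1.trans e2.symm)
    · have e1 := h1.2.2
      have e2 := h2.2.2
      simp only at e1 e2
      rcases e1 with e1 | e1 <;> rcases e2 with e2 | e2
      · exact k1 (e1.symm.trans e2)
      · exact k2 (e1.symm.trans e2)
      · exact k3 (e1.symm.trans e2)
      · exact k4 (e1.symm.trans e2)
    · exact h2.2.1 h1.1

/-- The subdivision lemma. -/
theorem sub_iff {V : Type} (G : SimpleGraph V) (A Z : Set V) :
    HasThreePaths (sub G) {p | ∃ a ∈ A, p = og a} {p | ∃ a ∈ Z, p = og a} ↔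
      Three G A Z (Anti G) := by
  rw [hasThreePaths_iff]
  constructor
  · rintro ⟨x, y, S, h1, h2, h3, h4⟩
    choose a haA ha using h1
    choose z hzZ hz using h2
    refine ⟨a, z, fun i => {w | og w ∈ S i}, haA, hzZ, fun i => ?_, fun i j hij u hu v hv =>
      anti_of_far (h4 i j hij _ hu _ hv)⟩
    obtain ⟨W, hW⟩ := h3 i
    exact lnk_of_sub _ W le_rfl hW _ _ (ha i) (hz i)
  · rintro ⟨x, y, S, h1, h2, h3, h4⟩
    exact ⟨fun i => og (x i), fun i => og (y i), fun i => {p | p.1.1 ∈ S i ∧ p.1.2 ∈ S i},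
      fun i => ⟨_, h1 i, rfl⟩, fun i => ⟨_, h2 i, rfl⟩, fun i => lnk_sub (h3 i),
      fun i j hij p hp q hq => far_of_anti (h4 i j hij) hp hq⟩

end Pool.Agent.Y599.MM
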