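import Pool.Agent.Y599.MM.Core
import Pool.Agent.NPC.Dec
import Pool.Agent.H671R2.OrdNP2

/-!
# The problem MM3 is in `NP`
-/

namespace Pool.Agent.Y599.MM

open Pool.Agent.NPC Pool.Agent.NPC.R671 Pool.Agent.H671R2.Ord

theorem charVec_getD {n : ℕ} (A : Set (Fin n)) (a : Fin n) :
    (charVec A).getD a false = true ↔ a ∈ A := by
  unfold charVec
  rw [List.getD_eq_getElem?_getD, List.getElem?_eq_getElem (by simp)]
  simp

theorem length_charVec {n : ℕ} (A : Set (Fin n)) : (charVec A).length = n := by
  simp [charVec]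

theorem charVec_inj {n : ℕ} {A B : Set (Fin n)} (h : charVec A = charVec B) : A = B := by
  ext a
  rw [← charVec_getD, ← charVec_getD, h]

theorem exists_charVec {n : ℕ} (l : List Bool) (h : l.length = n) :
    ∃ A : Set (Fin n), charVec A = l := by
  subst h
  refine ⟨{i | l[i] = true}, ?_⟩
  unfold charVec
  apply List.ext_getElem
  · simp
  · intro i h1 h2
    simp

/-- distance at least three, from the matrix -/
def farB (M : List (List Bool)) (u v : ℕ) : Bool :=
  (!decide (u = v) && !(me M u v)) && (List.range M.length).all (fun w => !(me M u w && me M w v))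

theorem farB_iff {n : ℕ} (G : SimpleGraph (Fin n)) (u v : Fin n) :
    farB (adjMatrix G) u v = true ↔ Far G u v := by
  unfold farB Far
  simp only [Bool.and_eq_true, Bool.not_eq_true', List.all_eq_true,
    List.mem_range, length_adjMatrix, ← Bool.not_eq_true, me_adj, decide_eq_true_eq]
  constructor
  · rintro ⟨⟨h1, h2⟩, h3⟩
    refine ⟨fun h => h1 (by rw [h]), h2, fun w hw => h3 w w.isLt ?_⟩
    rw [me_adj, me_adj]
    exact hw
  · rintro ⟨h1, h2, h3⟩
    refine ⟨⟨fun h => h1 (Fin.ext h), h2⟩, fun w hw h => h3 ⟨w, hw⟩ ?_⟩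
    rw [← me_adj, ← me_adj]
    exact h

/-- all pairs are far apart -/
def ff (M : List (List Bool)) (l l' : List ℕ) : Bool := l.all (fun u => l'.all (fun v => farB M u v))

theorem ff_iff {n : ℕ} (G : SimpleGraph (Fin n)) (l l' : List (Fin n)) :
    ff (adjMatrix G) (l.map Fin.val) (l'.map Fin.val) = true ↔ ∀ u ∈ l, ∀ v ∈ l', Far G u v := by
  simp only [ff, List.all_eq_true, List.mem_map, forall_exists_index, and_imp,
    forall_apply_eq_imp_iff₂, farB_iff]

/-- consecutive entries are adjacent -/
def ch (M : List (List Bool)) (l : List ℕ) : Bool := (l.zip l.tail).all (fun p => me M p.1 p.2)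

theorem ch_iff {n : ℕ} (G : SimpleGraph (Fin n)) (l : List (Fin n)) :
    ch (adjMatrix G) (l.map Fin.val) = true ↔ l.IsChain G.Adj := by
  induction l with
  | nil => simp [ch]
  | cons a l ih =>
    cases l with
    | nil => simp [ch]
    | cons b l =>
      have h1 : ch (adjMatrix G) ((a :: b :: l).map Fin.val) =
          (me (adjMatrix G) a b && ch (adjMatrix G) ((b :: l).map Fin.val)) := by
        simp [ch]
      rw [h1, Bool.and_eq_true, ih, me_adj, List.isChain_cons_cons]

/-- a list describes a walk from `A` to `Z` -/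
def chk (M : List (List Bool)) (A Z : List Bool) (l : List ℕ) : Bool :=
  (l.all (fun a => decide (a < M.length)) && decide (l.length ≤ M.length)) &&
    (ch M l && (l.head?.any (fun a => A.getD a false) && l.reverse.head?.any (fun a => Z.getD a false)))

theorem chk_iff {n : ℕ} (G : SimpleGraph (Fin n)) (A Z : Set (Fin n)) (l : List ℕ) :
    chk (adjMatrix G) (charVec A) (charVec Z) l = true ↔ ∃ (l' : List (Fin n)) (hne : l' ≠ []),
      l'.map Fin.val = l ∧ l'.length ≤ n ∧ l'.IsChain G.Adj ∧ l'.head hne ∈ A ∧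
        l'.getLast hne ∈ Z := by
  constructor
  · intro h
    simp only [chk, Bool.and_eq_true, List.all_eq_true, decide_eq_true_eq, length_adjMatrix] at h
    obtain ⟨⟨h1, h2⟩, h3, h4, h5⟩ := h
    have hl : ∃ l' : List (Fin n), l'.map Fin.val = l := by
      refine ⟨l.pmap (fun a h => ⟨a, h⟩) h1, ?_⟩
      rw [List.map_pmap]
      simp
    obtain ⟨l', rfl⟩ := hl
    have hne : l' ≠ [] := by
      rintro rfl
      simp at h4
    refine ⟨l', hne, rfl, by simpa using h2, (ch_iff G l').1 h3, ?_, ?_⟩
    · rw [List.head?_map, List.head?_eq_some_head hne] at h4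
      simp only [Option.map_some, Option.any_some] at h4
      exact (charVec_getD A _).1 h4
    · rw [List.head?_reverse, List.getLast?_map, List.getLast?_eq_some_getLast hne] at h5
      simp only [Option.map_some, Option.any_some] at h5
      exact (charVec_getD Z _).1 h5
  · rintro ⟨l', hne, rfl, h2, h3, h4, h5⟩
    simp only [chk, Bool.and_eq_true, List.all_eq_true, decide_eq_true_eq, length_adjMatrix]
    refine ⟨⟨?_, by simpa using h2⟩, (ch_iff G l').2 h3, ?_, ?_⟩
    · intro a ha
      rw [List.mem_map] at ha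
      obtain ⟨b, _, rfl⟩ := ha
      exact b.isLt
    · rw [List.head?_map, List.head?_eq_some_head hne]
      simp only [Option.map_some, Option.any_some]
      exact (charVec_getD A _).2 h4
    · rw [List.head?_reverse, List.getLast?_map, List.getLast?_eq_some_getLast hne]
      simp only [Option.map_some, Option.any_some]
      exact (charVec_getD Z _).2 h5

/-- the verifier -/
def v3 (x : (List (List Bool) × List Bool × List Bool) × (List ℕ × List ℕ × List ℕ)) : Bool :=
  (wf x.1.1 && (decide (x.1.2.1.length = x.1.1.length) && decide (x.1.2.2.length = x.1.1.length))) &&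
  ((chk x.1.1 x.1.2.1 x.1.2.2 x.2.1 && (chk x.1.1 x.1.2.1 x.1.2.2 x.2.2.1 &&
    chk x.1.1 x.1.2.1 x.1.2.2 x.2.2.2)) &&
  (ff x.1.1 x.2.1 x.2.2.1 && (ff x.1.1 x.2.1 x.2.2.2 && ff x.1.1 x.2.2.1 x.2.2.2)))

theorem Far.symm {V : Type} {G : SimpleGraph V} {u v : V} (h : Far G u v) : Far G v u :=
  ⟨h.1.symm, fun h' => h.2.1 h'.symm, fun w hw => h.2.2 w ⟨hw.2.symm, hw.1.symm⟩⟩

theorem mm3_iff (I : List (List Bool) × List Bool × List Bool) :
    MM3 I ↔ ∃ w : List ℕ × List ℕ × List ℕ, v3 (I, w) = true := by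
  constructor
  · rintro ⟨n, G, A, Z, rfl, x, y, P, h1, h2⟩
    refine ⟨((P 0).support.map Fin.val, (P 1).support.map Fin.val, (P 2).support.map Fin.val), ?_⟩
    have key : ∀ i, chk (adjMatrix G) (charVec A) (charVec Z) ((P i).support.map Fin.val) = true := by
      intro i
      rw [chk_iff]
      refine ⟨(P i).support, (P i).support_ne_nil, rfl, ?_, (P i).isChain_adj_support, ?_, ?_⟩
      · have := (h1 i).1.support_nodup.length_le_card
        simpa using this
      · rw [SimpleGraph.Walk.head_support]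
        exact (((h1 i).2.1 (x i)).2 rfl).2
      · rw [SimpleGraph.Walk.getLast_support]
        exact (((h1 i).2.2 (y i)).2 rfl).2
    have key2 : ∀ i j, i ≠ j → ff (adjMatrix G) ((P i).support.map Fin.val)
        ((P j).support.map Fin.val) = true := by
      intro i j hij
      rw [ff_iff]
      intro u hu v hv
      exact (far_iff _ _ _).1 (h2 i j hij u hu v hv)
    simp only [v3, key, key2 0 1 (by decide), key2 0 2 (by decide), key2 1 2 (by decide),
      (wf_iff _).2 ⟨n, G, rfl⟩, length_charVec, length_adjMatrix, decide_true, Bool.and_self]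
  · rintro ⟨⟨l0, l1, l2⟩, h⟩
    obtain ⟨M, Av, Zv⟩ := I
    simp only [v3, Bool.and_eq_true, decide_eq_true_eq] at h
    obtain ⟨⟨h1, h2, h3⟩, ⟨h4, h5, h6⟩, h7, h8, h9⟩ := h
    obtain ⟨n, G, rfl⟩ := (wf_iff _).1 h1
    rw [length_adjMatrix] at h2 h3
    obtain ⟨A, rfl⟩ := exists_charVec Av h2
    obtain ⟨Z, rfl⟩ := exists_charVec Zv h3
    rw [chk_iff] at h4 h5 h6
    obtain ⟨l0, n0, rfl, _, c0, a0, z0⟩ := h4
    obtain ⟨l1, n1, rfl, _, c1, a1, z1⟩ := h5
    obtain ⟨l2, n2, rfl, _, c2, a2, z2⟩ := h6
    rw [ff_iff] at h7 h8 h9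
    refine ⟨n, G, A, Z, rfl, ?_⟩
    rw [hasThreePaths_iff]
    refine ⟨![l0.head n0, l1.head n1, l2.head n2], ![l0.getLast n0, l1.getLast n1, l2.getLast n2],
      ![{w | w ∈ l0}, {w | w ∈ l1}, {w | w ∈ l2}], ?_, ?_, ?_, ?_⟩
    · intro i
      fin_cases i
      · exact a0
      · exact a1
      · exact a2
    · intro i
      fin_cases i
      · exact z0
      · exact z1
      · exact z2
    · have key : ∀ (l : List (Fin n)) (hne : l ≠ []), l.IsChain G.Adj →
          Lnk G {w | w ∈ l} (l.head hne) (l.getLast hne) := by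
        intro l hne hc
        refine ⟨SimpleGraph.Walk.ofSupport l hne hc, fun w hw => ?_⟩
        rw [SimpleGraph.Walk.support_ofSupport] at hw
        exact hw
      intro i
      fin_cases i
      · exact key l0 n0 c0
      · exact key l1 n1 c1
      · exact key l2 n2 c2
    · intro i j hij
      fin_cases i <;> fin_cases j
      · exact absurd rfl hij
      · exact h7
      · exact h8
      · exact fun u hu w hw => (h7 w hw u hu).symm
      · exact absurd rfl hij
      · exact h9
      · exact fun u hu w hw => (h8 w hw u hu).symm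
      · exact fun u hu w hw => (h9 w hw u hu).symm
      · exact absurd rfl hij

theorem farB_poly : Poly (fun x : List (List Bool) × ℕ × ℕ => farB x.1 x.2.1 x.2.2) := by
  unfold farB
  have h1 : UPoly (fun x : List (List Bool) × ℕ × ℕ => x.1.length) := UPoly.length (by fun_prop)
  refine NPC.Poly.and (by fun_prop) ?_
  exact NPC.Poly.all (l := fun x : List (List Bool) × ℕ × ℕ => List.range x.1.length)
    (p := fun x w => !(me x.1 x.2.1 w && me x.1 w x.2.2)) h1.range (by fun_prop)

attribute [local irreducible] farB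

theorem farB_poly' {α : Type} [TEnc α] {M : α → List (List Bool)} {u v : α → ℕ}
    (h1 : Poly M) (h2 : Poly u) (h3 : Poly v) : Poly (fun a => farB (M a) (u a) (v a)) :=
  farB_poly.comp (h1.pair (h2.pair h3))

attribute [local fun_prop] farB_poly'

theorem ff_poly : Poly (fun x : List (List Bool) × List ℕ × List ℕ => ff x.1 x.2.1 x.2.2) := by
  unfold ff
  fun_prop

theorem chk_poly : Poly (fun x : List (List Bool) × List Bool × List Bool × List ℕ =>
    chk x.1 x.2.1 x.2.2.1 x.2.2.2) := by
  unfold chk ch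
  fun_prop

attribute [local irreducible] ff chk wf

theorem ff_poly' {α : Type} [TEnc α] {M : α → List (List Bool)} {u v : α → List ℕ}
    (h1 : Poly M) (h2 : Poly u) (h3 : Poly v) : Poly (fun a => ff (M a) (u a) (v a)) :=
  ff_poly.comp (h1.pair (h2.pair h3))

theorem chk_poly' {α : Type} [TEnc α] {M : α → List (List Bool)} {u v : α → List Bool}
    {w : α → List ℕ} (h1 : Poly M) (h2 : Poly u) (h3 : Poly v) (h4 : Poly w) :
    Poly (fun a => chk (M a) (u a) (v a) (w a)) :=
  chk_poly.comp (h1.pair (h2.pair (h3.pair h4)))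

theorem wf_poly' {α : Type} [TEnc α] {M : α → List (List Bool)}
    (h1 : Poly M) : Poly (fun a => wf (M a)) := wf_poly.comp h1

attribute [local fun_prop] ff_poly' chk_poly' wf_poly'

theorem v3_poly : Poly v3 := by
  unfold v3
  refine NPC.Poly.and (NPC.Poly.and ?_ (NPC.Poly.and ?_ ?_)) (NPC.Poly.and (NPC.Poly.and ?_
    (NPC.Poly.and ?_ ?_)) (NPC.Poly.and ?_ (NPC.Poly.and ?_ ?_)))
  all_goals fun_prop

theorem cert_short {M : List (List Bool)} {A Z : List Bool} {l : List ℕ}
    (h : chk M A Z l = true) : sz l ≤ M.length * (4 * M.length + 2) + 1 := by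
  unfold chk at h
  simp only [Bool.and_eq_true, decide_eq_true_eq, List.all_eq_true] at h
  obtain ⟨⟨h1, h2⟩, _⟩ := h
  have hsz : ∀ a ∈ l, sz a ≤ 4 * M.length + 1 := by
    intro a ha
    have h3 := sz_nat_le a
    have h4 := Poly.size_le_self a
    have h5 := h1 a ha
    omega
  have h5 := sz_le_length_mul l _ hsz
  nlinarith

theorem inNPP : InNPP MM3 := by
  refine inNPP_of (R := v3) v3_poly (12 * Polynomial.X ^ 2 + 6 * Polynomial.X + 5) ?_
  intro I
  rw [mm3_iff]
  refine exists_congr fun w => ⟨fun h => ⟨?_, h⟩, fun h => h.2⟩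
  obtain ⟨M, A, Z⟩ := I
  obtain ⟨l0, l1, l2⟩ := w
  simp only [v3, Bool.and_eq_true] at h
  obtain ⟨_, ⟨h4, h5, h6⟩, _⟩ := h
  have e0 := cert_short h4
  have e1 := cert_short h5
  have e2 := cert_short h6
  have h1 : M.length ≤ sz M := (length_lt_sz M).le
  have h2 : sz M ≤ sz (M, A, Z) := by
    rw [sz_pair]
    omega
  rw [sz_pair, sz_pair]
  simp only [Polynomial.eval_add, Polynomial.eval_mul, Polynomial.eval_pow, Polynomial.eval_X,
    Polynomial.eval_ofNat]
  have h3 : M.length ≤ sz (M, A, Z) := h1.trans h2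
  nlinarith

end Pool.Agent.Y599.MM
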